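import Pool.Agent.MP_a3b80b_mp.H38.Index

/-!
The Riesz projection onto the negative part of the spectrum of an invertible self-adjoint operator.
-/

open Complex MeasureTheory
open scoped InnerProductSpace Real

set_option linter.unusedSectionVars false

namespace Pool.Agent.MP_a3b80b_mp.H38

variable {E : Type*} [NormedAddCommGroup E] [InnerProductSpace ℂ E] [CompleteSpace E]

/-- strictly positive operators -/
def Pos (X : E →L[ℂ] E) : Prop := ∃ δ : ℝ, 0 < δ ∧ ∀ u, δ * ‖u‖ ^ 2 ≤ (⟪X u, u⟫_ℂ).re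

lemma Pos.isUnit {X : E →L[ℂ] E} (h : Pos X) : IsUnit X := by
  obtain ⟨δ, hδ, h⟩ := h
  refine ContinuousLinearMap.isUnit_of_forall_le_norm_inner_map X (c := ⟨δ, hδ.le⟩) hδ fun u => ?_
  calc ‖u‖ ^ 2 * δ = δ * ‖u‖ ^ 2 := mul_comm _ _
    _ ≤ _ := h u
    _ ≤ _ := Complex.re_le_norm _

lemma pos_of_spectrum [Nontrivial E] {X : E →L[ℂ] E} (hX : IsSelfAdjoint X)
    (h : ∀ t ∈ spectrum ℝ X, 0 < t) : Pos X := by
  obtain ⟨r, hr, hle⟩ := (CFC.exists_pos_algebraMap_le_iff hX).2 h
  refine ⟨r, hr, fun u => ?_⟩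
  rw [ContinuousLinearMap.le_def] at hle
  have := hle.re_inner_nonneg_left u
  simp only [sub_apply, inner_sub_left, Algebra.algebraMap_eq_smul_one,
    smul_apply, one_apply_eq_self, map_sub,
    RCLike.re_to_complex] at this
  have h2 : (⟪r • u, u⟫_ℂ).re = r * ‖u‖ ^ 2 := by
    rw [← Complex.coe_smul, inner_smul_left, inner_self_eq_norm_sq_to_K]
    simp [← Complex.ofReal_pow]
  linarith

lemma riesz [Nontrivial E] {X : E →L[ℂ] E} (hX : IsSelfAdjoint X) (h0 : IsUnit X) :
    ∃ r : ℝ, 0 < r ∧ (∀ z ∈ Metric.sphere (-r : ℂ) |r|, z ∈ resolventSet ℂ X) ∧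
      ∃ P : E →L[ℂ] E, P * P = P ∧ IsSelfAdjoint P ∧
        (∀ u v, (∮ z in C(-r, r), ⟪u, resolvent X z v⟫_ℂ) = 2 * π * I * ⟪u, P v⟫_ℂ) ∧
        (P = 0 → Pos X) ∧ (P = 1 → Pos (-X)) := by
  set r : ℝ := ‖X‖ + 1 with hr
  have hr0 : 0 < r := by positivity
  have hsp : ∀ t ∈ spectrum ℂ X, ∃ s : ℝ, t = s ∧ s ≠ 0 ∧ -r < s := by
    intro t ht
    refine ⟨t.re, hX.mem_spectrum_eq_re ht, fun h => ?_, ?_⟩
    · have h1 := hX.mem_spectrum_eq_re ht
      rw [h] at h1
      rw [h1] at ht
      exact (spectrum.zero_notMem_iff ℂ).2 h0 (by simpa using ht)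
    · have h1 := spectrum.norm_le_norm_of_mem ht
      have h2 := Complex.abs_re_le_norm t
      have := (abs_le.1 (h2.trans h1)).1
      linarith
  have hdist : ∀ s : ℝ, dist (s : ℂ) (-r : ℂ) = |s + r| := by
    intro s
    rw [Complex.dist_eq, sub_neg_eq_add, ← Complex.ofReal_add, Complex.norm_real, Real.norm_eq_abs]
  have hres : ∀ z ∈ Metric.sphere (-r : ℂ) |r|, z ∈ resolventSet ℂ X := by
    intro z hz
    by_contra hc
    obtain ⟨s, rfl, hs0, hs⟩ := hsp z hc
    rw [Metric.mem_sphere, hdist, abs_of_pos hr0, abs_of_pos (by linarith)] at hz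
    exact hs0 (by linarith)
  have hne : ∀ θ : ℝ, ∀ t ∈ spectrum ℂ X, circleMap (-r) r θ - t ≠ 0 := by
    intro θ t ht h
    have := hres _ (circleMap_mem_sphere' (-r) r θ)
    rw [sub_eq_zero.1 h] at this
    exact ht this
  have hN : IsStarNormal X := hX.isStarNormal
  let χ : ℂ → ℂ := fun t => if t.re < 0 then 1 else 0
  have hχ : ContinuousOn χ (spectrum ℂ X) := by
    intro t ht
    obtain ⟨s, rfl, hs0, -⟩ := hsp t ht
    refine ContinuousAt.continuousWithinAt ?_
    rcases lt_or_gt_of_ne hs0 with h | h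
    · have : ∀ᶠ t : ℂ in nhds (s : ℂ), t.re < 0 :=
        (isOpen_lt Complex.continuous_re continuous_const).mem_nhds (by simpa using h)
      refine continuousAt_const.congr (this.mono fun t ht => ?_) (f := fun _ => 1)
      simp [χ, ht]
    · have : ∀ᶠ t : ℂ in nhds (s : ℂ), 0 < t.re :=
        (isOpen_lt continuous_const Complex.continuous_re).mem_nhds (by simpa using h)
      refine continuousAt_const.congr (this.mono fun t ht => ?_) (f := fun _ => 0)
      simp [χ, ht.le]
  have hcirc : ∀ t ∈ spectrum ℂ X, (∮ z in C(-r, r), (z - t)⁻¹) = 2 * π * I * χ t := by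
    intro t ht
    obtain ⟨s, rfl, hs0, hs⟩ := hsp t ht
    rcases lt_or_gt_of_ne hs0 with h | h
    · rw [circleIntegral.integral_sub_inv_of_mem_ball]
      · simp [χ, h]
      · rw [Metric.mem_ball, hdist, abs_of_pos (by linarith)]
        linarith
    · have hz : ∀ z ∈ Metric.closedBall (-r : ℂ) r, z - (s : ℂ) ≠ 0 := by
        intro z hz h1
        rw [sub_eq_zero.1 h1, Metric.mem_closedBall, hdist, abs_of_pos (by linarith)] at hz
        linarith
      rw [circleIntegral_eq_zero_of_differentiable_on_off_countable hr0.le Set.countable_empty]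
      · simp [χ, h.le]
      · exact (continuousOn_id.sub continuousOn_const).inv₀ hz
      · intro z hz'
        exact (differentiableAt_id.sub_const _).inv (hz z (Metric.ball_subset_closedBall hz'.1))
  let f : ℝ → ℂ → ℂ := fun θ t => (circleMap 0 r θ * I) * (circleMap (-r) r θ - t)⁻¹
  have hf : ContinuousOn (Function.uncurry f) (Set.univ ×ˢ spectrum ℂ X) := by
    refine ContinuousOn.mul (Continuous.continuousOn ?_) (ContinuousOn.inv₀
      (Continuous.continuousOn ?_) fun p hp => hne p.1 p.2 hp.2)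
    · exact ((continuous_circleMap 0 r).comp continuous_fst).mul continuous_const
    · exact ((continuous_circleMap (-r) r).comp continuous_fst).sub continuous_snd
  obtain ⟨C, hC⟩ := ((isCompact_Icc (a := (0 : ℝ)) (b := 2 * π)).prod
    (spectrum.isCompact (𝕜 := ℂ) X)).exists_bound_of_continuousOn
      (hf.mono (Set.prod_mono (Set.subset_univ _) subset_rfl))
  have hint := cfc_integral (μ := volume.restrict (Set.Ioc (0 : ℝ) (2 * π))) f (fun _ => C) X hf
    (ae_restrict_of_forall_mem measurableSet_Ioc fun θ hθ t ht =>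
      hC (θ, t) ⟨Set.Ioc_subset_Icc_self hθ, ht⟩) (by
        apply HasFiniteIntegral.of_bounded (C := ‖C‖)
        simp)
  have hfθ : ∀ θ, cfc (f θ) X = (circleMap 0 r θ * I) • resolvent X (circleMap (-r) r θ) := by
    intro θ
    have hc : ContinuousOn (fun t => circleMap (-r) r θ - t) (spectrum ℂ X) := by fun_prop
    simp only [f]
    rw [cfc_const_mul _ (fun t => (circleMap (-r) r θ - t)⁻¹) X (hc.inv₀ (hne θ)), cfc_inv _ X (hne θ), cfc_sub _ _ X, cfc_const _ X,
      cfc_id' ℂ X]
    rfl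
  have hL : cfc (fun t => ∫ θ in Set.Ioc (0 : ℝ) (2 * π), f θ t) X = (2 * π * I) • cfc χ X := by
    rw [← cfc_const_mul _ _ X hχ]
    refine cfc_congr fun t ht => ?_
    rw [← hcirc t ht, ← intervalIntegral.integral_of_le (by positivity)]
    simp [circleIntegral, f]
  have hcont : Continuous fun θ => (circleMap 0 r θ * I) • resolvent X (circleMap (-r) r θ) := by
    refine ((continuous_circleMap 0 r).mul continuous_const).smul ?_
    rw [continuous_iff_continuousAt]
    intro θ
    exact ContinuousAt.comp (f := circleMap (-r) r)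
      (spectrum.hasDerivAt_resolvent_const_left
        (hres _ (circleMap_mem_sphere' (-r) r θ))).continuousAt
      (continuous_circleMap (-r) r).continuousAt
  refine ⟨r, hr0, hres, cfc χ X, ?_, ?_, ?_, ?_, ?_⟩
  · rw [← cfc_mul _ _ X hχ hχ]
    refine cfc_congr fun t _ => ?_
    simp only [χ]
    split_ifs <;> simp
  · rw [IsSelfAdjoint, ← cfc_star]
    refine cfc_congr fun t _ => ?_
    simp only [χ]
    split_ifs <;> simp
  · intro u v
    let L : (E →L[ℂ] E) →L[ℂ] ℂ := (innerSL ℂ u).comp (ContinuousLinearMap.apply ℂ E v)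
    have h1 : L ((2 * π * I) • cfc χ X) = 2 * π * I * ⟪u, cfc χ X v⟫_ℂ := by
      rw [map_smul]; rfl
    rw [← h1, ← hL, hint, ← intervalIntegral.integral_of_le (by positivity)]
    simp_rw [hfθ]
    rw [← L.intervalIntegral_comp_comm (hcont.intervalIntegrable _ _)]
    simp [circleIntegral, L]
  · intro hP
    rw [← cfc_zero ℂ X] at hP
    replace hP := eqOn_of_cfc_eq_cfc hP hχ
    refine pos_of_spectrum hX fun t ht => ?_
    have ht' : (t : ℂ) ∈ spectrum ℂ X := (spectrum.algebraMap_mem_iff ℂ).2 ht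
    obtain ⟨s, hs, hs0, -⟩ := hsp _ ht'
    obtain rfl : t = s := by exact_mod_cast hs
    have := hP ht'
    simp only [χ, Complex.ofReal_re, Pi.zero_apply, ite_eq_right_iff, one_ne_zero] at this
    exact lt_of_le_of_ne (not_lt.1 this) hs0.symm
  · intro hP
    rw [← cfc_one ℂ X] at hP
    replace hP := eqOn_of_cfc_eq_cfc hP hχ
    refine pos_of_spectrum hX.neg fun t ht => ?_
    rw [← spectrum.neg_eq, Set.mem_neg] at ht
    have ht' : ((-t : ℝ) : ℂ) ∈ spectrum ℂ X := (spectrum.algebraMap_mem_iff ℂ).2 ht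
    have := hP ht'
    simp only [χ, Complex.ofReal_re, Pi.one_apply, ite_eq_left_iff, zero_ne_one] at this
    by_contra hc
    exact this (by linarith)

end Pool.Agent.MP_a3b80b_mp.H38
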