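import Pool.Agent.MP_a3b80b_mp.H38.Count
import Pool.Agent.MP_a3b80b_mp.H38.Riesz

/-!
The Schur complement of a three by three block operator.
-/

open Set Filter Topology
open scoped InnerProductSpace

set_option linter.unusedSectionVars false

attribute [-simp] Complex.coe_smul

namespace Pool.Agent.MP_a3b80b_mp.H38

variable {E : Type*} [NormedAddCommGroup E] [InnerProductSpace ℂ E] [CompleteSpace E]

/-- the block operator minus `z` -/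
noncomputable def Fl (A1 B1 A2 B2 : E →L[ℂ] E) (b0 b c z : ℝ) : E × E × E →ₗ[ℂ] E × E × E where
  toFun p := (((b0 - z : ℝ) : ℂ) • p.1 + A1 p.2.1 + A2 p.2.2, B1 p.1 + ((b - z : ℝ) : ℂ) • p.2.1,
    B2 p.1 + ((c - z : ℝ) : ℂ) • p.2.2)
  map_add' p q := by
    simp only [Prod.fst_add, Prod.snd_add, smul_add, map_add, Prod.mk_add_mk, Prod.mk.injEq]
    refine ⟨?_, ?_, ?_⟩ <;> abel
  map_smul' t p := by
    simp only [Prod.smul_fst, Prod.smul_snd, map_smul, RingHom.id_apply, Prod.smul_mk, smul_add,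
      smul_comm t]

lemma Fl_apply (A1 B1 A2 B2 : E →L[ℂ] E) (b0 b c z : ℝ) (u v w : E) :
    Fl A1 B1 A2 B2 b0 b c z (u, v, w) = (((b0 - z : ℝ) : ℂ) • u + A1 v + A2 w,
      B1 u + ((b - z : ℝ) : ℂ) • v, B2 u + ((c - z : ℝ) : ℂ) • w) := rfl

/-- the Schur complement -/
noncomputable def Sop (A1 B1 A2 B2 : E →L[ℂ] E) (b0 b c z : ℝ) : E →L[ℂ] E :=
  ((z - b0 : ℝ) : ℂ) • 1 - (((z - b)⁻¹ : ℝ) : ℂ) • (A1 * B1) - (((z - c)⁻¹ : ℝ) : ℂ) • (A2 * B2)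

/-- its quadratic form -/
noncomputable def qf (B1 B2 : E →L[ℂ] E) (b0 b c z : ℝ) (u : E) : ℝ :=
  (z - b0) * ‖u‖ ^ 2 - (z - b)⁻¹ * ‖B1 u‖ ^ 2 - (z - c)⁻¹ * ‖B2 u‖ ^ 2

/-- the form is positive definite -/
def PP (B1 B2 : E →L[ℂ] E) (b0 b c z : ℝ) : Prop :=
  ∃ δ : ℝ, 0 < δ ∧ ∀ u, δ * ‖u‖ ^ 2 ≤ qf B1 B2 b0 b c z u

/-- the form is negative definite -/
def QQ (B1 B2 : E →L[ℂ] E) (b0 b c z : ℝ) : Prop :=
  ∃ δ : ℝ, 0 < δ ∧ ∀ u, δ * ‖u‖ ^ 2 ≤ -qf B1 B2 b0 b c z u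

/-- bounded below -/
def Below (B : E →L[ℂ] E) : Prop := ∃ δ : ℝ, 0 < δ ∧ ∀ u, δ * ‖u‖ ^ 2 ≤ ‖B u‖ ^ 2

variable {A1 B1 A2 B2 : E →L[ℂ] E} {b0 b c z : ℝ}

lemma qf_swap (u : E) : qf B1 B2 b0 b c z u = qf B2 B1 b0 c b z u := by unfold qf; ring

lemma PP_swap : PP B1 B2 b0 b c = PP B2 B1 b0 c b := by
  funext z; simp only [PP, qf_swap (B1 := B1)]

lemma QQ_swap : QQ B1 B2 b0 b c = QQ B2 B1 b0 c b := by
  funext z; simp only [QQ, qf_swap (B1 := B1)]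

lemma qf_neg (u : E) : qf B1 B2 (-b0) (-b) (-c) (-z) u = -qf B1 B2 b0 b c z u := by
  unfold qf
  rw [show -z - -b = -(z - b) by ring, show -z - -c = -(z - c) by ring, inv_neg, inv_neg]
  ring

lemma QQ_iff : QQ B1 B2 b0 b c z ↔ PP B1 B2 (-b0) (-b) (-c) (-z) := by
  simp only [PP, QQ, qf_neg]

lemma PP_iff : PP B1 B2 b0 b c z ↔ QQ B1 B2 (-b0) (-b) (-c) (-z) := by
  simp only [PP, QQ, qf_neg, neg_neg]

lemma Fl_swap : Function.Bijective (Fl A1 B1 A2 B2 b0 b c z) →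
    Function.Bijective (Fl A2 B2 A1 B1 b0 c b z) := by
  intro h
  let e : E × E × E ≃ E × E × E := (Equiv.refl E).prodCongr (Equiv.prodComm E E)
  have : (Fl A2 B2 A1 B1 b0 c b z : E × E × E → E × E × E) = e ∘ Fl A1 B1 A2 B2 b0 b c z ∘ e := by
    funext ⟨u, v, w⟩
    simp [e, Fl_apply, add_right_comm]
  rw [this]
  exact e.bijective.comp (h.comp e.bijective)

lemma Sop_apply (u : E) : Sop A1 B1 A2 B2 b0 b c z u = ((z - b0 : ℝ) : ℂ) • u -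
    (((z - b)⁻¹ : ℝ) : ℂ) • A1 (B1 u) - (((z - c)⁻¹ : ℝ) : ℂ) • A2 (B2 u) := rfl

lemma re_Sop (h1 : ∀ u v, ⟪A1 u, v⟫_ℂ = ⟪u, B1 v⟫_ℂ) (h2 : ∀ u v, ⟪A2 u, v⟫_ℂ = ⟪u, B2 v⟫_ℂ)
    (u : E) : (⟪Sop A1 B1 A2 B2 b0 b c z u, u⟫_ℂ).re = qf B1 B2 b0 b c z u := by
  simp only [Sop_apply, inner_sub_left, inner_smul_left, h1, h2, Complex.conj_ofReal,
    inner_self_eq_norm_sq_to_K, qf, Complex.sub_re, Complex.re_ofReal_mul]
  simp [← Complex.ofReal_pow]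

lemma solve_aux {t : ℝ} (ht : t ≠ 0) {x v f : E} (h : x + ((-t : ℝ) : ℂ) • v = f) :
    v = ((t⁻¹ : ℝ) : ℂ) • (x - f) := by
  have : (t : ℂ) ≠ 0 := by exact_mod_cast ht
  rw [← h]
  simp [smul_smul, this]

lemma reg_iff (hb : z ≠ b) (hc : z ≠ c) :
    Function.Bijective (Fl A1 B1 A2 B2 b0 b c z) ↔ IsUnit (Sop A1 B1 A2 B2 b0 b c z) := by
  have hb' : z - b ≠ 0 := sub_ne_zero.2 hb
  have hc' : z - c ≠ 0 := sub_ne_zero.2 hc
  have hbC : ((z : ℂ) - b) ≠ 0 := by exact_mod_cast hb'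
  have hcC : ((z : ℂ) - c) ≠ 0 := by exact_mod_cast hc'
  have key : ∀ u f1 f2, Fl A1 B1 A2 B2 b0 b c z (u, (((z - b)⁻¹ : ℝ) : ℂ) • (B1 u - f1),
      (((z - c)⁻¹ : ℝ) : ℂ) • (B2 u - f2)) = (-Sop A1 B1 A2 B2 b0 b c z u -
        (((z - b)⁻¹ : ℝ) : ℂ) • A1 f1 - (((z - c)⁻¹ : ℝ) : ℂ) • A2 f2, f1, f2) := by
    intro u f1 f2
    rw [Fl_apply, Sop_apply]
    simp only [map_smul, map_sub, smul_smul, Prod.mk.injEq]
    push_cast
    refine ⟨by module, ?_, ?_⟩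
    · rw [show ((b : ℂ) - z) * ((z : ℂ) - b)⁻¹ = -1 by field_simp; ring]
      simp
    · rw [show ((c : ℂ) - z) * ((z : ℂ) - c)⁻¹ = -1 by field_simp; ring]
      simp
  have key2 : ∀ u v w f0 f1 f2, Fl A1 B1 A2 B2 b0 b c z (u, v, w) = (f0, f1, f2) →
      v = (((z - b)⁻¹ : ℝ) : ℂ) • (B1 u - f1) ∧ w = (((z - c)⁻¹ : ℝ) : ℂ) • (B2 u - f2) := by
    intro u v w f0 f1 f2 h
    rw [Fl_apply] at h
    simp only [Prod.mk.injEq] at h
    exact ⟨solve_aux hb' (by rw [neg_sub]; exact h.2.1), solve_aux hc' (by rw [neg_sub]; exact h.2.2)⟩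
  rw [ContinuousLinearMap.isUnit_iff_bijective]
  constructor
  · rintro ⟨h1, h2⟩
    constructor
    · rw [injective_iff_map_eq_zero] at h1 ⊢
      intro u hu
      have := key u 0 0
      simp only [hu, neg_zero, map_zero, smul_zero, sub_self] at this
      exact congrArg Prod.fst (h1 _ this)
    · intro f
      obtain ⟨⟨u, v, w⟩, h⟩ := h2 (-f, 0, 0)
      obtain ⟨rfl, rfl⟩ := key2 _ _ _ _ _ _ h
      rw [key] at h
      exact ⟨u, by simpa using h⟩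
  · rintro ⟨h1, h2⟩
    constructor
    · rw [injective_iff_map_eq_zero] at h1 ⊢
      rintro ⟨u, v, w⟩ h
      obtain ⟨rfl, rfl⟩ := key2 _ _ _ _ _ _ h
      rw [key] at h
      have : u = 0 := h1 u (by simpa using h)
      simp [this]
    · rintro ⟨f0, f1, f2⟩
      obtain ⟨u, hu⟩ := h2 (-f0 - (((z - b)⁻¹ : ℝ) : ℂ) • A1 f1 - (((z - c)⁻¹ : ℝ) : ℂ) • A2 f2)
      refine ⟨_, (key u f1 f2).trans ?_⟩
      rw [hu]
      congr 1
      abel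

lemma reg_at (hbc : b ≠ c) (hA : IsUnit A1) (hB : IsUnit B1) :
    Function.Bijective (Fl A1 B1 A2 B2 b0 b c b) := by
  rw [ContinuousLinearMap.isUnit_iff_bijective] at hA hB
  have hc' : b - c ≠ 0 := sub_ne_zero.2 hbc
  have hcC : ((b : ℂ) - c) ≠ 0 := by exact_mod_cast hc'
  constructor
  · rw [injective_iff_map_eq_zero]
    rintro ⟨u, v, w⟩ h
    rw [Fl_apply] at h
    simp only [sub_self, Complex.ofReal_zero, zero_smul, add_zero, Prod.mk_eq_zero] at h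
    obtain ⟨h0, h1, h2⟩ := h
    obtain rfl : u = 0 := (injective_iff_map_eq_zero _).1 hB.1 u h1
    obtain rfl : w = 0 := by simpa using solve_aux hc' (x := B2 0) (v := w) (f := 0) (by rw [neg_sub]; exact h2)
    obtain rfl : v = 0 := (injective_iff_map_eq_zero _).1 hA.1 v (by simpa using h0)
    rfl
  · rintro ⟨f0, f1, f2⟩
    obtain ⟨u, hu⟩ := hB.2 f1
    set w := (((b - c)⁻¹ : ℝ) : ℂ) • (B2 u - f2) with hw
    obtain ⟨v, hv⟩ := hA.2 (f0 - ((b0 - b : ℝ) : ℂ) • u - A2 w)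
    refine ⟨(u, v, w), ?_⟩
    rw [Fl_apply, hu, hv]
    simp only [sub_self, Complex.ofReal_zero, zero_smul, add_zero, Prod.mk.injEq, true_and]
    refine ⟨by abel, ?_⟩
    rw [hw, smul_smul]
    push_cast
    rw [show ((c : ℂ) - b) * ((b : ℂ) - c)⁻¹ = -1 by field_simp; ring]
    simp

lemma inv_anti {z w b : ℝ} (h : z ≤ w) (hb : b ∉ Icc z w) : (w - b)⁻¹ ≤ (z - b)⁻¹ := by
  rcases lt_or_ge b z with h1 | h1
  · exact inv_anti₀ (by linarith) (by linarith)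
  · have h2 : w < b := by
      by_contra h3
      exact hb ⟨h1, not_lt.1 h3⟩
    rw [inv_le_inv_of_neg (by linarith) (by linarith)]
    linarith

lemma qf_mono {w : ℝ} (h : z ≤ w) (hb : b ∉ Icc z w) (hc : c ∉ Icc z w) (u : E) :
    qf B1 B2 b0 b c z u ≤ qf B1 B2 b0 b c w u := by
  unfold qf
  have h1 := mul_le_mul_of_nonneg_right (inv_anti h hb) (sq_nonneg ‖B1 u‖)
  have h2 := mul_le_mul_of_nonneg_right (inv_anti h hc) (sq_nonneg ‖B2 u‖)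
  have h3 := mul_le_mul_of_nonneg_right h (sq_nonneg ‖u‖)
  linarith

lemma sq_le_op (B : E →L[ℂ] E) (u : E) : ‖B u‖ ^ 2 ≤ ‖B‖ ^ 2 * ‖u‖ ^ 2 := by
  rw [← mul_pow]
  gcongr
  exact B.le_opNorm u

lemma mul_sq_le (B : E →L[ℂ] E) (u : E) (t : ℝ) : t * ‖B u‖ ^ 2 ≤ |t| * ‖B‖ ^ 2 * ‖u‖ ^ 2 := by
  rw [mul_assoc]
  exact mul_le_mul (le_abs_self t) (sq_le_op B u) (sq_nonneg _) (abs_nonneg _)

lemma PP_open (hb : z ≠ b) (hc : z ≠ c) (h : PP B1 B2 b0 b c z) :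
    ∀ᶠ w in 𝓝 z, PP B1 B2 b0 b c w := by
  obtain ⟨δ, hδ, h⟩ := h
  have hcont : ContinuousAt (fun w : ℝ => δ + (w - z) - |(w - b)⁻¹ - (z - b)⁻¹| * ‖B1‖ ^ 2 -
      |(w - c)⁻¹ - (z - c)⁻¹| * ‖B2‖ ^ 2) z := by
    have := sub_ne_zero.2 hb
    have := sub_ne_zero.2 hc
    fun_prop (disch := assumption)
  filter_upwards [hcont.eventually (lt_mem_nhds (a := 0) (by simpa using hδ))] with w hw
  refine ⟨_, hw, fun u => ?_⟩
  have h1 := mul_sq_le B1 u ((w - b)⁻¹ - (z - b)⁻¹)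
  have h2 := mul_sq_le B2 u ((w - c)⁻¹ - (z - c)⁻¹)
  have h3 := h u
  unfold qf at h3 ⊢
  linarith

lemma QQ_open (hb : z ≠ b) (hc : z ≠ c) (h : QQ B1 B2 b0 b c z) :
    ∀ᶠ w in 𝓝 z, QQ B1 B2 b0 b c w := by
  simp only [QQ_iff] at h ⊢
  exact continuous_neg.continuousAt.eventually (PP_open (by simpa) (by simpa) h)

lemma tendsto_left (b : ℝ) : Tendsto (fun z => -(z - b)⁻¹) (𝓝[<] b) atTop := by
  refine tendsto_neg_atBot_atTop.comp (tendsto_inv_nhdsLT_zero.comp ?_)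
  refine tendsto_nhdsWithin_iff.2 ⟨?_, ?_⟩
  · have : Tendsto (fun z => z - b) (𝓝 b) (𝓝 (b - b)) := (continuous_sub_right b).tendsto b
    rw [sub_self] at this
    exact this.mono_left nhdsWithin_le_nhds
  · filter_upwards [self_mem_nhdsWithin] with z hz
    simpa using hz

lemma ev_neg {b : ℝ} {p : ℝ → Prop} (h : ∀ᶠ z in 𝓝[<] (-b), p z) : ∀ᶠ z in 𝓝[>] b, p (-z) := by
  refine Tendsto.eventually (tendsto_nhdsWithin_iff.2 ⟨?_, ?_⟩) h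
  · exact (continuous_neg.tendsto b).mono_left nhdsWithin_le_nhds
  · filter_upwards [self_mem_nhdsWithin] with z hz
    simpa using hz

lemma ev_pos {f : ℝ → ℝ} {b κ : ℝ} (hf : ContinuousAt f b) (hκ : 0 < κ) :
    ∀ᶠ z in 𝓝[<] b, 0 < f z + -(z - b)⁻¹ * κ :=
  ((hf.tendsto.mono_left nhdsWithin_le_nhds).add_atTop
    ((tendsto_left b).atTop_mul_const hκ)).eventually_gt_atTop 0

lemma left_not (hbc : b ≠ c) (h : ∃ u, B1 u ≠ 0) : ∀ᶠ z in 𝓝[<] b, ¬ QQ B1 B2 b0 b c z := by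
  obtain ⟨u, hu⟩ := h
  have hf : ContinuousAt (fun z : ℝ => (z - b0) * ‖u‖ ^ 2 - (z - c)⁻¹ * ‖B2 u‖ ^ 2) b := by
    have := sub_ne_zero.2 hbc
    fun_prop (disch := assumption)
  filter_upwards [ev_pos hf (κ := ‖B1 u‖ ^ 2) (by positivity)] with z hz
  rintro ⟨δ, hδ, h⟩
  have := h u
  unfold qf at this
  nlinarith [mul_nonneg hδ.le (sq_nonneg ‖u‖)]

lemma right_not (hbc : b ≠ c) (h : ∃ u, B1 u ≠ 0) : ∀ᶠ z in 𝓝[>] b, ¬ PP B1 B2 b0 b c z := by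
  simp only [PP_iff]
  exact ev_neg (left_not (by simpa) h)

lemma glue_below {w : ℝ} (h1 : z < b) (h2 : b < w) (hc : c ∉ Icc z w) (hP : PP B1 B2 b0 b c z)
    (hQ : QQ B1 B2 b0 b c w) : Below B1 := by
  obtain ⟨δ, hδ, hP⟩ := hP
  obtain ⟨δ', hδ', hQ⟩ := hQ
  have h3 : 0 < (w - b)⁻¹ - (z - b)⁻¹ := by
    have : 0 < (w - b)⁻¹ := inv_pos.2 (by linarith)
    have : (z - b)⁻¹ < 0 := inv_lt_zero.2 (by linarith)
    linarith
  refine ⟨δ / ((w - b)⁻¹ - (z - b)⁻¹), by positivity, fun u => ?_⟩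
  rw [div_mul_eq_mul_div, div_le_iff₀ h3]
  have a1 := hP u
  have a2 := hQ u
  have a3 := mul_le_mul_of_nonneg_right (inv_anti (h1.trans h2).le hc) (sq_nonneg ‖B2 u‖)
  have a4 := mul_le_mul_of_nonneg_right (h1.trans h2).le (sq_nonneg ‖u‖)
  have a5 := mul_nonneg hδ'.le (sq_nonneg ‖u‖)
  unfold qf at a1 a2
  linarith

lemma low_ex [Nontrivial E] : ∃ z, z < b ∧ z < c ∧ ¬ PP B1 B2 b0 b c z := by
  obtain ⟨u, hu⟩ := exists_ne (0 : E)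
  have hu' : 0 < ‖u‖ ^ 2 := by positivity
  set z := min (min b c - 1) (b0 - ‖B1‖ ^ 2 - ‖B2‖ ^ 2) with hz
  have h1 : z ≤ b - 1 := (min_le_left _ _).trans (by linarith [min_le_left b c])
  have h2 : z ≤ c - 1 := (min_le_left _ _).trans (by linarith [min_le_right b c])
  have h3 : z ≤ b0 - ‖B1‖ ^ 2 - ‖B2‖ ^ 2 := min_le_right _ _
  refine ⟨z, by linarith, by linarith, ?_⟩
  rintro ⟨δ, hδ, h⟩
  have a1 := h u
  have key : ∀ t : ℝ, z ≤ t - 1 → ∀ B : E →L[ℂ] E,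
      -(z - t)⁻¹ * ‖B u‖ ^ 2 ≤ ‖B‖ ^ 2 * ‖u‖ ^ 2 := by
    intro t ht B
    have : -(z - t)⁻¹ ≤ 1 := by
      rw [← inv_neg]
      exact inv_le_one_of_one_le₀ (by linarith)
    nlinarith [sq_le_op B u, sq_nonneg ‖B u‖]
  have a2 := key b h1 B1
  have a3 := key c h2 B2
  have a4 := mul_le_mul_of_nonneg_right h3 hu'.le
  unfold qf at a1
  nlinarith [mul_pos hδ hu']

lemma high_ex [Nontrivial E] : ∃ z, b < z ∧ c < z ∧ ¬ QQ B1 B2 b0 b c z := by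
  obtain ⟨z, h1, h2, h3⟩ := low_ex (B1 := B1) (B2 := B2) (b0 := -b0) (b := -b) (c := -c)
  exact ⟨-z, by linarith, by linarith, by rwa [QQ_iff, neg_neg]⟩

theorem setup [Nontrivial E] {N : Set ℝ} (hbc : b ≠ c) (hN : IsOpen N)
    (hreg : ∀ z, z ∈ N ↔ Function.Bijective (Fl A1 B1 A2 B2 b0 b c z))
    (h1 : ∀ u v, ⟪A1 u, v⟫_ℂ = ⟪u, B1 v⟫_ℂ) (h2 : ∀ u v, ⟪A2 u, v⟫_ℂ = ⟪u, B2 v⟫_ℂ)
    (hdef : ∀ z, IsUnit (Sop A1 B1 A2 B2 b0 b c z) →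
      Pos (Sop A1 B1 A2 B2 b0 b c z) ∨ Pos (-Sop A1 B1 A2 B2 b0 b c z))
    (hu1 : Below B1 → IsUnit A1 ∧ IsUnit B1) (hu2 : Below B2 → IsUnit A2 ∧ IsUnit B2)
    (hn1 : ∃ u, B1 u ≠ 0) (hn2 : ∃ u, B2 u ≠ 0) :
    Setup N (PP B1 B2 b0 b c) (QQ B1 B2 b0 b c) b c where
  ne := hbc
  opn := hN
  mem z hb hc := by
    have e1 : Pos (Sop A1 B1 A2 B2 b0 b c z) ↔ PP B1 B2 b0 b c z := by
      simp only [Pos, PP, re_Sop h1 h2]
    have e2 : Pos (-Sop A1 B1 A2 B2 b0 b c z) ↔ QQ B1 B2 b0 b c z := by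
      simp only [Pos, QQ, neg_apply, inner_neg_left, Complex.neg_re, re_Sop h1 h2]
    rw [hreg, reg_iff hb hc, ← e1, ← e2]
    refine ⟨hdef z, ?_⟩
    rintro (h | h)
    · exact h.isUnit
    · simpa using h.isUnit
  excl z := by
    rintro ⟨δ, hδ, h⟩ ⟨δ', hδ', h'⟩
    obtain ⟨u, hu⟩ := exists_ne (0 : E)
    have hu' : 0 < ‖u‖ ^ 2 := by positivity
    nlinarith [h u, h' u, mul_pos hδ hu', mul_pos hδ' hu']
  monoP z w h hb hc := by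
    rintro ⟨δ, hδ, h'⟩
    exact ⟨δ, hδ, fun u => (h' u).trans (qf_mono h hb hc u)⟩
  monoQ z w h hb hc := by
    rintro ⟨δ, hδ, h'⟩
    exact ⟨δ, hδ, fun u => (h' u).trans (neg_le_neg (qf_mono h hb hc u))⟩
  openP z := PP_open
  openQ z := QQ_open
  left1 := left_not hbc hn1
  right1 := right_not hbc hn1
  left2 := by rw [QQ_swap]; exact left_not hbc.symm hn2
  right2 := by rw [PP_swap]; exact right_not hbc.symm hn2
  glue1 z w a1 a2 a3 a4 a5 := by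
    obtain ⟨hA, hB⟩ := hu1 (glue_below a1 a2 a3 a4 a5)
    exact (hreg b).2 (reg_at hbc hA hB)
  glue2 z w a1 a2 a3 a4 a5 := by
    rw [PP_swap] at a4
    rw [QQ_swap] at a5
    obtain ⟨hA, hB⟩ := hu2 (glue_below a1 a2 a3 a4 a5)
    exact (hreg c).2 (Fl_swap (reg_at hbc.symm hA hB))
  low := low_ex
  high := high_ex

lemma ex_left {p : ℝ → Prop} (hbc : b ≠ c) (h : ∀ᶠ z in 𝓝[<] b, p z) :
    ∃ z, z < b ∧ c ∉ Icc z b ∧ p z := by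
  have h0 : c ∉ Icc b b := by simpa using hbc.symm
  obtain ⟨z, h1, h2, h3⟩ := (h.and (((ev_left h0).filter_mono nhdsWithin_le_nhds).and
    self_mem_nhdsWithin)).exists
  exact ⟨z, h3, h2, h1⟩

lemma opn_of_below (hbc : b ≠ c) (h : Below B1) :
    Opn (PP B1 B2 b0 b c) (QQ B1 B2 b0 b c) b c := by
  obtain ⟨κ, hκ, h⟩ := h
  refine Or.inl (ex_left hbc ?_)
  have hf : ContinuousAt (fun z : ℝ => (z - b0) - |(z - c)⁻¹| * ‖B2‖ ^ 2) b := by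
    have := sub_ne_zero.2 hbc
    fun_prop (disch := assumption)
  filter_upwards [ev_pos hf hκ, (tendsto_left b).eventually_gt_atTop 0] with z hz hz'
  refine ⟨_, hz, fun u => ?_⟩
  have a1 := mul_sq_le B2 u (z - c)⁻¹
  have a2 := mul_le_mul_of_nonneg_left (h u) hz'.le
  unfold qf
  linarith

/-- the freeness estimate -/
def FreeEst (B1 B2 : E →L[ℂ] E) (s : ℝ) : Prop :=
  ∀ ε : ℝ, 0 < ε → ∃ M : ℝ, 0 ≤ M ∧ ∀ u, |‖B2 u‖ ^ 2 - s * ‖u‖ ^ 2| ≤ ε * ‖u‖ ^ 2 + M * ‖B1 u‖ ^ 2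

lemma left_pos {s : ℝ} (hbc : b ≠ c) (hF : FreeEst B1 B2 s) (ht : 0 < b - b0 - s * (b - c)⁻¹) :
    ∀ᶠ z in 𝓝[<] b, PP B1 B2 b0 b c z := by
  have hne := sub_ne_zero.2 hbc
  have habs : 0 < |(b - c)⁻¹| := abs_pos.2 (inv_ne_zero hne)
  set ε := (b - b0 - s * (b - c)⁻¹) / (2 * |(b - c)⁻¹|) with hε
  obtain ⟨M, hM0, hM⟩ := hF ε (by positivity)
  have hf : ContinuousAt (fun z : ℝ => z - b0 - s * (z - c)⁻¹ - |(z - c)⁻¹| * ε) b := by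
    fun_prop (disch := assumption)
  have hg : ContinuousAt (fun z : ℝ => -(|(z - c)⁻¹| * M)) b := by
    fun_prop (disch := assumption)
  have h0 : 0 < b - b0 - s * (b - c)⁻¹ - |(b - c)⁻¹| * ε := by
    have : |(b - c)⁻¹| * ε = (b - b0 - s * (b - c)⁻¹) / 2 := by
      rw [hε, mul_div_assoc', mul_comm 2, mul_div_mul_left _ _ habs.ne']
    linarith
  filter_upwards [(hf.eventually (lt_mem_nhds h0)).filter_mono nhdsWithin_le_nhds,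
    ev_pos hg one_pos] with z hz hz'
  refine ⟨_, hz, fun u => ?_⟩
  have a1 : (z - c)⁻¹ * (‖B2 u‖ ^ 2 - s * ‖u‖ ^ 2) ≤
      |(z - c)⁻¹| * (ε * ‖u‖ ^ 2 + M * ‖B1 u‖ ^ 2) := by
    refine (le_abs_self _).trans ?_
    rw [abs_mul]
    exact mul_le_mul_of_nonneg_left (hM u) (abs_nonneg _)
  have a2 := mul_nonneg hz'.le (sq_nonneg ‖B1 u‖)
  unfold qf
  linarith

lemma opn_of_ne {s : ℝ} (hbc : b ≠ c) (hF : FreeEst B1 B2 s) (ht : b - b0 - s * (b - c)⁻¹ ≠ 0) :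
    Opn (PP B1 B2 b0 b c) (QQ B1 B2 b0 b c) b c := by
  rcases lt_or_gt_of_ne ht with h | h
  · obtain ⟨z, h1, h2, h3⟩ := ex_left (b := -b) (c := -c) (by simpa)
      (left_pos (b0 := -b0) (c := -c) (by simpa) hF (by
        rw [show -b - -c = -(b - c) by ring, inv_neg]; linarith))
    refine Or.inr ⟨-z, by linarith, fun hc => h2 ⟨by linarith [hc.2], by linarith [hc.1]⟩, ?_⟩
    rwa [QQ_iff, neg_neg]
  · exact Or.inl (ex_left hbc (left_pos hbc hF h))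

lemma below_of_left {s : ℝ} (hs : 0 ≤ s) (hF : FreeEst B1 B2 s)
    (ht : b - b0 - s * (b - c)⁻¹ = 0) (h1 : z < b) (h2 : c ∉ Icc z b)
    (h : PP B1 B2 b0 b c z) : Below B1 := by
  obtain ⟨δ, hδ, h⟩ := h
  have hp : 0 < |(z - c)⁻¹| + 1 := by positivity
  obtain ⟨M, hM0, hM⟩ := hF (δ / (2 * (|(z - c)⁻¹| + 1))) (by positivity)
  have h3 : 0 < -(z - b)⁻¹ := by
    have : (z - b)⁻¹ < 0 := inv_lt_zero.2 (by linarith)
    linarith
  have h4 : 0 < -(z - b)⁻¹ + |(z - c)⁻¹| * M := by positivity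
  refine ⟨δ / 2 / (-(z - b)⁻¹ + |(z - c)⁻¹| * M), by positivity, fun u => ?_⟩
  rw [div_mul_eq_mul_div, div_le_iff₀ h4]
  have a1 : -(z - c)⁻¹ * (‖B2 u‖ ^ 2 - s * ‖u‖ ^ 2) ≤
      |(z - c)⁻¹| * (δ / (2 * (|(z - c)⁻¹| + 1)) * ‖u‖ ^ 2 + M * ‖B1 u‖ ^ 2) := by
    refine (le_abs_self _).trans ?_
    rw [abs_mul, abs_neg]
    exact mul_le_mul_of_nonneg_left (hM u) (abs_nonneg _)
  have a2 : |(z - c)⁻¹| * (δ / (2 * (|(z - c)⁻¹| + 1))) ≤ δ / 2 := by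
    rw [mul_div_assoc', div_le_div_iff₀ (by positivity) (by positivity)]
    nlinarith
  have a3 := mul_le_mul_of_nonneg_right a2 (sq_nonneg ‖u‖)
  have a4 : z - b0 - s * (z - c)⁻¹ ≤ 0 := by
    have := mul_le_mul_of_nonneg_left (inv_anti h1.le h2) hs
    linarith
  have a5 := mul_le_mul_of_nonneg_right a4 (sq_nonneg ‖u‖)
  have a6 := h u
  unfold qf at a6
  linarith

lemma below_of_opn {s : ℝ} (hs : 0 ≤ s) (hF : FreeEst B1 B2 s)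
    (ht : b - b0 - s * (b - c)⁻¹ = 0) (h : Opn (PP B1 B2 b0 b c) (QQ B1 B2 b0 b c) b c) :
    Below B1 := by
  rcases h with ⟨z, h1, h2, h3⟩ | ⟨z, h1, h2, h3⟩
  · exact below_of_left hs hF ht h1 h2 h3
  · rw [QQ_iff] at h3
    refine below_of_left hs hF ?_ (by linarith)
      (fun hc => h2 ⟨by linarith [hc.2], by linarith [hc.1]⟩) h3
    rw [show -b - -c = -(b - c) by ring, inv_neg]
    linarith

end Pool.Agent.MP_a3b80b_mp.H38
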