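import Pool.Agent.MP_a3b80b_mp.H38.Defs

/-!
Counting the gaps from monotonicity properties.
-/

open Set Filter Topology

namespace Pool.Agent.MP_a3b80b_mp.H38

/-- the properties of the resolvent set which are used to count gaps -/
structure Setup (N : Set ℝ) (P Q : ℝ → Prop) (b c : ℝ) : Prop where
  ne : b ≠ c
  opn : IsOpen N
  mem : ∀ z, z ≠ b → z ≠ c → (z ∈ N ↔ P z ∨ Q z)
  excl : ∀ z, P z → ¬ Q z
  monoP : ∀ z w, z ≤ w → b ∉ Icc z w → c ∉ Icc z w → P z → P w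
  monoQ : ∀ z w, z ≤ w → b ∉ Icc z w → c ∉ Icc z w → Q w → Q z
  openP : ∀ z, z ≠ b → z ≠ c → P z → ∀ᶠ w in 𝓝 z, P w
  openQ : ∀ z, z ≠ b → z ≠ c → Q z → ∀ᶠ w in 𝓝 z, Q w
  left1 : ∀ᶠ z in 𝓝[<] b, ¬ Q z
  right1 : ∀ᶠ z in 𝓝[>] b, ¬ P z
  left2 : ∀ᶠ z in 𝓝[<] c, ¬ Q z
  right2 : ∀ᶠ z in 𝓝[>] c, ¬ P z
  glue1 : ∀ z w, z < b → b < w → c ∉ Icc z w → P z → Q w → b ∈ N
  glue2 : ∀ z w, z < c → c < w → b ∉ Icc z w → P z → Q w → c ∈ N
  low : ∃ z, z < b ∧ z < c ∧ ¬ P z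
  high : ∃ z, b < z ∧ c < z ∧ ¬ Q z

variable {N : Set ℝ} {P Q : ℝ → Prop} {b c : ℝ}

lemma Setup.symm (h : Setup N P Q b c) : Setup N P Q c b where
  ne := h.ne.symm
  opn := h.opn
  mem z h1 h2 := h.mem z h2 h1
  excl := h.excl
  monoP z w h0 h1 h2 := h.monoP z w h0 h2 h1
  monoQ z w h0 h1 h2 := h.monoQ z w h0 h2 h1
  openP z h1 h2 := h.openP z h2 h1
  openQ z h1 h2 := h.openQ z h2 h1
  left1 := h.left2
  right1 := h.right2
  left2 := h.left1
  right2 := h.right1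
  glue1 := h.glue2
  glue2 := h.glue1
  low := let ⟨z, h1, h2, h3⟩ := h.low; ⟨z, h2, h1, h3⟩
  high := let ⟨z, h1, h2, h3⟩ := h.high; ⟨z, h2, h1, h3⟩

/-- the candidate for the gap at `b` -/
def Blk (N : Set ℝ) (P Q : ℝ → Prop) (b c : ℝ) : Set ℝ :=
  {z | (z < b ∧ c ∉ Icc z b ∧ P z) ∨ (z = b ∧ b ∈ N) ∨ (b < z ∧ c ∉ Icc b z ∧ Q z)}

/-- the gap at `b` is open -/
def Opn (P Q : ℝ → Prop) (b c : ℝ) : Prop :=
  (∃ z, z < b ∧ c ∉ Icc z b ∧ P z) ∨ (∃ z, b < z ∧ c ∉ Icc b z ∧ Q z)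

lemma ev_left {b c z : ℝ} (h : c ∉ Icc z b) : ∀ᶠ w in 𝓝 z, c ∉ Icc w b := by
  rcases lt_or_ge c z with h1 | h1
  · filter_upwards [lt_mem_nhds h1] with w hw hc using absurd hc.1 (not_le.2 hw)
  · exact Eventually.of_forall fun w hc => h ⟨h1, hc.2⟩

lemma ev_right {b c z : ℝ} (h : c ∉ Icc b z) : ∀ᶠ w in 𝓝 z, c ∉ Icc b w := by
  rcases lt_or_ge z c with h1 | h1
  · filter_upwards [gt_mem_nhds h1] with w hw hc using absurd hc.2 (not_le.2 hw)
  · exact Eventually.of_forall fun w hc => h ⟨hc.1, h1⟩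

lemma Setup.blk_open (h : Setup N P Q b c) : IsOpen (Blk N P Q b c) := by
  rw [isOpen_iff_eventually]
  rintro z (⟨h1, h2, h3⟩ | ⟨rfl, h2⟩ | ⟨h1, h2, h3⟩)
  · filter_upwards [gt_mem_nhds h1, ev_left h2,
      h.openP z h1.ne (by rintro rfl; exact h2 ⟨le_rfl, h1.le⟩) h3] with w a1 a2 a3
    exact Or.inl ⟨a1, a2, a3⟩
  · have h0 : c ∉ Icc z z := by simpa using h.ne.symm
    filter_upwards [h.opn.mem_nhds h2, ev_left h0, ev_right h0,
      eventually_nhdsWithin_iff.1 h.left1, eventually_nhdsWithin_iff.1 h.right1]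
      with w a1 a2 a3 a4 a5
    rcases lt_trichotomy w z with h1 | h1 | h1
    · exact Or.inl ⟨h1, a2, ((h.mem w h1.ne
        (by rintro rfl; exact a2 ⟨le_rfl, h1.le⟩)).1 a1).resolve_right (a4 h1)⟩
    · exact Or.inr (Or.inl ⟨h1, h2⟩)
    · exact Or.inr (Or.inr ⟨h1, a3, ((h.mem w h1.ne'
        (by rintro rfl; exact a3 ⟨h1.le, le_rfl⟩)).1 a1).resolve_left (a5 h1)⟩)
  · filter_upwards [lt_mem_nhds h1, ev_right h2,
      h.openQ z h1.ne' (by rintro rfl; exact h2 ⟨h1.le, le_rfl⟩) h3] with w a1 a2 a3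
    exact Or.inr (Or.inr ⟨a1, a2, a3⟩)

lemma Setup.blk_conn (h : Setup N P Q b c) : IsPreconnected (Blk N P Q b c) := by
  refine OrdConnected.isPreconnected ⟨fun x hx y hy t ht => ?_⟩
  obtain ⟨t1, t2⟩ := ht
  rcases lt_trichotomy t b with h1 | h1 | h1
  · rcases hx with ⟨a1, a2, a3⟩ | ⟨a1, -⟩ | ⟨a1, -⟩
    · refine Or.inl ⟨h1, fun hc => a2 ⟨t1.trans hc.1, hc.2⟩, h.monoP x t t1 ?_ ?_ a3⟩
      · exact fun hc => absurd hc.2 (not_le.2 h1)
      · exact fun hc => a2 ⟨hc.1, hc.2.trans h1.le⟩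
    · linarith
    · linarith
  · refine Or.inr (Or.inl ⟨h1, ?_⟩)
    rcases hx with ⟨a1, a2, a3⟩ | ⟨-, a1⟩ | ⟨a1, -⟩
    · rcases hy with ⟨c1, -⟩ | ⟨-, c1⟩ | ⟨c1, c2, c3⟩
      · linarith
      · exact c1
      · refine h.glue1 x y a1 c1 (fun hc => ?_) a3 c3
        rcases le_total c b with h2 | h2
        · exact a2 ⟨hc.1, h2⟩
        · exact c2 ⟨h2, hc.2⟩
    · exact a1
    · linarith
  · rcases hy with ⟨a1, -⟩ | ⟨a1, -⟩ | ⟨a1, a2, a3⟩
    · linarith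
    · linarith
    · refine Or.inr (Or.inr ⟨h1, fun hc => a2 ⟨hc.1, hc.2.trans t2⟩, h.monoQ t y t2 ?_ ?_ a3⟩)
      · exact fun hc => absurd hc.1 (not_le.2 h1)
      · exact fun hc => a2 ⟨h1.le.trans hc.1, hc.2⟩

lemma Setup.blk_bdd (h : Setup N P Q b c) : Bornology.IsBounded (Blk N P Q b c) := by
  obtain ⟨lo, l1, l2, l3⟩ := h.low
  obtain ⟨hi, u1, u2, u3⟩ := h.high
  refine (Metric.isBounded_Icc lo hi).subset ?_
  rintro z (⟨h1, h2, h3⟩ | ⟨rfl, h2⟩ | ⟨h1, h2, h3⟩)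
  · refine ⟨?_, by linarith⟩
    by_contra hc
    exact l3 (h.monoP z lo (not_le.1 hc).le (fun a => absurd a.2 (not_le.2 l1))
      (fun a => absurd a.2 (not_le.2 l2)) h3)
  · exact ⟨l1.le, u1.le⟩
  · refine ⟨by linarith, ?_⟩
    by_contra hc
    exact u3 (h.monoQ hi z (not_le.1 hc).le (fun a => absurd a.1 (not_le.2 u1))
      (fun a => absurd a.1 (not_le.2 u2)) h3)

lemma Setup.blk_nonempty (h : Setup N P Q b c) : (Blk N P Q b c).Nonempty ↔ Opn P Q b c := by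
  constructor
  · rintro ⟨z, hz⟩
    rcases id hz with a | ⟨rfl, h2⟩ | a
    · exact Or.inl ⟨z, a⟩
    · obtain ⟨w, hw, hw'⟩ := ((eventually_mem_set.2 (h.blk_open.mem_nhds hz)).filter_mono
        (nhdsWithin_le_nhds (s := Iio z))).and self_mem_nhdsWithin |>.exists
      rcases hw with a | ⟨a, -⟩ | ⟨a, -⟩
      · exact Or.inl ⟨w, a⟩
      · exact absurd a (ne_of_lt hw')
      · exact absurd a (not_lt.2 (le_of_lt hw'))
    · exact Or.inr ⟨z, a⟩
  · rintro (⟨z, a⟩ | ⟨z, a⟩)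
    · exact ⟨z, Or.inl a⟩
    · exact ⟨z, Or.inr (Or.inr a)⟩

lemma comp_eq {X : Type*} [TopologicalSpace X] {N U V : Set X} (hU : IsOpen U) (hV : IsOpen V)
    (hc : IsPreconnected U) (hd : Disjoint U V) (hN : N = U ∪ V) {x : X} (hx : x ∈ U) :
    connectedComponentIn N x = U := by
  have hUN : U ⊆ N := hN ▸ subset_union_left
  refine Subset.antisymm ?_ (hc.subset_connectedComponentIn hx hUN)
  exact isPreconnected_connectedComponentIn.subset_left_of_subset_union hU hV hd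
    (hN ▸ connectedComponentIn_subset _ _) ⟨x, mem_connectedComponentIn (hUN hx), hx⟩

lemma Setup.blk_sub (h : Setup N P Q b c) : Blk N P Q b c ⊆ N := by
  rintro z (⟨h1, h2, h3⟩ | ⟨rfl, h2⟩ | ⟨h1, h2, h3⟩)
  · exact (h.mem z h1.ne (by rintro rfl; exact h2 ⟨le_rfl, h1.le⟩)).2 (Or.inl h3)
  · exact h2
  · exact (h.mem z h1.ne' (by rintro rfl; exact h2 ⟨h1.le, le_rfl⟩)).2 (Or.inr h3)

lemma Setup.gaps_eq (h : Setup N P Q b c) (hbc : b < c) :
    gaps Nᶜ = {C | (C = Blk N P Q b c ∨ C = Blk N P Q c b) ∧ C.Nonempty} ∧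
      Disjoint (Blk N P Q b c) (Blk N P Q c b) := by
  set N0 : Set ℝ := {z | z < b ∧ Q z} with hN0
  set N3 : Set ℝ := {z | c < z ∧ P z} with hN3
  have o0 : IsOpen N0 := by
    rw [isOpen_iff_eventually]
    rintro z ⟨h1, h2⟩
    filter_upwards [gt_mem_nhds h1, h.openQ z h1.ne (by linarith) h2] with w a1 a2 using ⟨a1, a2⟩
  have o3 : IsOpen N3 := by
    rw [isOpen_iff_eventually]
    rintro z ⟨h1, h2⟩
    filter_upwards [lt_mem_nhds h1, h.openP z (by linarith) h1.ne' h2] with w a1 a2 using ⟨a1, a2⟩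
  have d01 : Disjoint N0 (Blk N P Q b c) := by
    rw [Set.disjoint_left]
    rintro z ⟨h1, h2⟩ (⟨-, -, a⟩ | ⟨a, -⟩ | ⟨a, -⟩)
    exacts [h.excl z a h2, by linarith, by linarith]
  have d02 : Disjoint N0 (Blk N P Q c b) := by
    rw [Set.disjoint_left]
    rintro z ⟨h1, h2⟩ (⟨-, -, a⟩ | ⟨a, -⟩ | ⟨a, -⟩)
    exacts [h.excl z a h2, by linarith, by linarith]
  have d31 : Disjoint N3 (Blk N P Q b c) := by
    rw [Set.disjoint_left]
    rintro z ⟨h1, h2⟩ (⟨a, -⟩ | ⟨a, -⟩ | ⟨-, -, a⟩)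
    exacts [by linarith, by linarith, h.excl z h2 a]
  have d32 : Disjoint N3 (Blk N P Q c b) := by
    rw [Set.disjoint_left]
    rintro z ⟨h1, h2⟩ (⟨a, -⟩ | ⟨a, -⟩ | ⟨-, -, a⟩)
    exacts [by linarith, by linarith, h.excl z h2 a]
  have d12 : Disjoint (Blk N P Q b c) (Blk N P Q c b) := by
    rw [Set.disjoint_left]
    rintro z (⟨a1, a2, a3⟩ | ⟨a1, a2⟩ | ⟨a1, a2, a3⟩) (⟨c1, c2, c3⟩ | ⟨c1, c2⟩ | ⟨c1, c2, c3⟩)
    · exact c2 ⟨a1.le, hbc.le⟩
    · linarith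
    · linarith
    · exact c2 ⟨a1.le, hbc.le⟩
    · linarith
    · linarith
    · exact h.excl z c3 a3
    · exact a2 ⟨hbc.le, c1.ge⟩
    · exact a2 ⟨hbc.le, c1.le⟩
  have hN : ∀ z ∈ N, z ∈ N0 ∨ z ∈ Blk N P Q b c ∨ z ∈ Blk N P Q c b ∨ z ∈ N3 := by
    intro z hz
    rcases lt_trichotomy z b with h1 | h1 | h1
    · rcases (h.mem z h1.ne (by linarith)).1 hz with a | a
      · exact Or.inr (Or.inl (Or.inl ⟨h1, fun hc => by linarith [hc.2], a⟩))
      · exact Or.inl ⟨h1, a⟩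
    · exact Or.inr (Or.inl (Or.inr (Or.inl ⟨h1, h1 ▸ hz⟩)))
    rcases lt_trichotomy z c with h2 | h2 | h2
    · rcases (h.mem z h1.ne' h2.ne).1 hz with a | a
      · exact Or.inr (Or.inr (Or.inl (Or.inl ⟨h2, fun hc => by linarith [hc.1], a⟩)))
      · exact Or.inr (Or.inl (Or.inr (Or.inr ⟨h1, fun hc => by linarith [hc.2], a⟩)))
    · exact Or.inr (Or.inr (Or.inl (Or.inr (Or.inl ⟨h2, h2 ▸ hz⟩))))
    · rcases (h.mem z h1.ne' h2.ne').1 hz with a | a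
      · exact Or.inr (Or.inr (Or.inr ⟨h2, a⟩))
      · exact Or.inr (Or.inr (Or.inl (Or.inr (Or.inr ⟨h2, fun hc => by linarith [hc.1], a⟩))))
  have s0 : N0 ⊆ N := fun z hz => (h.mem z hz.1.ne (by linarith [hz.1])).2 (Or.inr hz.2)
  have s3 : N3 ⊆ N := fun z hz => (h.mem z (by linarith [hz.1]) hz.1.ne').2 (Or.inl hz.2)
  have c1 : ∀ x ∈ Blk N P Q b c, connectedComponentIn N x = Blk N P Q b c := fun x hx =>
    comp_eq (V := N0 ∪ Blk N P Q c b ∪ N3) h.blk_open ((o0.union h.symm.blk_open).union o3)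
      h.blk_conn (by simp [d01.symm, d12, d31.symm]) (Subset.antisymm
        (fun z hz => by have := hN z hz; simp only [mem_union]; tauto)
        (by simp [s0, s3, h.blk_sub, h.symm.blk_sub])) hx
  have c2 : ∀ x ∈ Blk N P Q c b, connectedComponentIn N x = Blk N P Q c b := fun x hx =>
    comp_eq (V := N0 ∪ Blk N P Q b c ∪ N3) h.symm.blk_open ((o0.union h.blk_open).union o3)
      h.symm.blk_conn (by simp [d02.symm, d12.symm, d32.symm]) (Subset.antisymm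
        (fun z hz => by have := hN z hz; simp only [mem_union]; tauto)
        (by simp [s0, s3, h.blk_sub, h.symm.blk_sub])) hx
  refine ⟨?_, d12⟩
  ext C
  simp only [gaps, compl_compl, mem_ofPred_eq]
  constructor
  · rintro ⟨hb, x, hx, rfl⟩
    refine ⟨?_, x, mem_connectedComponentIn hx⟩
    rcases hN x hx with a | a | a | a
    · have : Iic x ⊆ connectedComponentIn N x :=
        isPreconnected_Iic.subset_connectedComponentIn (mem_Iic.2 le_rfl) fun z hz =>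
          s0 ⟨lt_of_le_of_lt hz a.1, h.monoQ z x hz (fun hc => by linarith [hc.2, a.1])
            (fun hc => by linarith [hc.2, a.1]) a.2⟩
      exact absurd (hb.subset this).bddBelow (not_bddBelow_Iic x)
    · exact Or.inl (c1 x a)
    · exact Or.inr (c2 x a)
    · have : Ici x ⊆ connectedComponentIn N x :=
        isPreconnected_Ici.subset_connectedComponentIn (mem_Ici.2 le_rfl) fun z hz =>
          s3 ⟨lt_of_lt_of_le a.1 hz, h.monoP x z hz (fun hc => by linarith [hc.1, a.1])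
            (fun hc => by linarith [hc.1, a.1]) a.2⟩
      exact absurd (hb.subset this).bddAbove (not_bddAbove_Ici x)
  · rintro ⟨rfl | rfl, x, hx⟩
    · exact ⟨h.blk_bdd, x, h.blk_sub hx, (c1 x hx).symm⟩
    · exact ⟨h.symm.blk_bdd, x, h.symm.blk_sub hx, (c2 x hx).symm⟩

lemma Setup.count_lt (h : Setup N P Q b c) (hbc : b < c) :
    (gaps Nᶜ).encard = 2 ↔ Opn P Q b c ∧ Opn P Q c b := by
  obtain ⟨h1, h2⟩ := h.gaps_eq hbc
  rw [h1, ← h.blk_nonempty, ← h.symm.blk_nonempty]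
  constructor
  · intro hc
    by_contra hn
    rw [not_and_or] at hn
    have : ∃ D, {C | (C = Blk N P Q b c ∨ C = Blk N P Q c b) ∧ C.Nonempty} ⊆ {D} := by
      rcases hn with hn | hn
      · refine ⟨Blk N P Q c b, ?_⟩
        rintro C ⟨rfl | rfl, a⟩
        exacts [absurd a hn, rfl]
      · refine ⟨Blk N P Q b c, ?_⟩
        rintro C ⟨rfl | rfl, a⟩
        exacts [rfl, absurd a hn]
    obtain ⟨D, hD⟩ := this
    have := encard_le_encard hD
    rw [hc, encard_singleton] at this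
    exact absurd this (by decide)
  · rintro ⟨a1, a2⟩
    have : {C | (C = Blk N P Q b c ∨ C = Blk N P Q c b) ∧ C.Nonempty} =
        {Blk N P Q b c, Blk N P Q c b} := by
      ext C
      constructor
      · exact fun hC => hC.1
      · rintro (rfl | rfl)
        exacts [⟨Or.inl rfl, a1⟩, ⟨Or.inr rfl, a2⟩]
    rw [this]
    refine encard_pair fun he => ?_
    rw [he, disjoint_self] at h2
    exact a2.ne_empty h2

theorem Setup.count (h : Setup N P Q b c) :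
    (gaps Nᶜ).encard = 2 ↔ Opn P Q b c ∧ Opn P Q c b := by
  rcases lt_or_gt_of_ne h.ne with h1 | h1
  · exact h.count_lt h1
  · rw [h.symm.count_lt h1, and_comm]

end Pool.Agent.MP_a3b80b_mp.H38
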