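import Pool.Agent.MP_a3b80b_mp.H38.Defs

/-!
The universal cover of the example graph, described through the free group of rank three.
-/

namespace Pool.Agent.MP_a3b80b_mp.H38

open FreeGroup

namespace MGraph

variable {p q : ℕ} {G : MGraph p q} {v₀ : Fin p}

@[simp] lemma rev_rev (d : Fin q × Bool) : rev (rev d) = d := by simp [rev]

@[simp] lemma ini_rev (d : Fin q × Bool) : G.ini (rev d) = G.ter d := by
  rcases d with ⟨e, _ | _⟩ <;> simp [rev, ini, ter]

@[simp] lemma ter_rev (d : Fin q × Bool) : G.ter (rev d) = G.ini d := by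
  rcases d with ⟨e, _ | _⟩ <;> simp [rev, ini, ter]

/-- the neighbour map, made total -/
def st (x : G.Cover v₀) (d : Fin q × Bool) : G.Cover v₀ :=
  if h : G.ini d = G.proj x then G.nbr x ⟨d, h⟩ else x

lemma st_val (x : G.Cover v₀) {d : Fin q × Bool} (h : G.ini d = G.proj x) :
    (st x d).1 = if x.1.head? = some (rev d) then x.1.tail else d :: x.1 := by
  unfold st
  rw [dif_pos h]
  unfold nbr
  by_cases h1 : x.1.head? = some (rev d)
  · rw [dif_pos h1, if_pos h1]
  · rw [dif_neg h1, if_neg h1]

lemma st_cases (x : G.Cover v₀) {d : Fin q × Bool} (h : G.ini d = G.proj x) :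
    (x.1 = rev d :: (st x d).1) ∨ ((st x d).1 = d :: x.1) := by
  rw [st_val x h]
  split_ifs with h1
  · left
    exact List.eq_cons_of_mem_head? h1
  · right; rfl

lemma NB.inv {d : Fin q × Bool} {l : List (Fin q × Bool)} (h : G.NB v₀ (d :: l)) :
    G.NB v₀ l ∧ G.ini d = G.endpt v₀ l ∧ l.head? ≠ some (rev d) := by
  cases h with
  | cons d l h1 h2 h3 => exact ⟨h1, h2, h3⟩

lemma proj_st (x : G.Cover v₀) {d : Fin q × Bool} (h : G.ini d = G.proj x) :
    G.proj (st x d) = G.ter d := by
  rcases st_cases x h with h1 | h1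
  · have := x.2
    rw [h1] at this
    rw [proj, ← this.inv.2.1, ini_rev]
  · rw [proj, h1]; rfl

lemma st_cons (x y : G.Cover v₀) {d : Fin q × Bool} (h : y.1 = d :: x.1) : st x d = y := by
  have := y.2
  rw [h] at this
  obtain ⟨-, h2, h3⟩ := this.inv
  apply Subtype.ext
  rw [st_val x h2, if_neg h3, h]

lemma st_st (x : G.Cover v₀) {d : Fin q × Bool} (h : G.ini d = G.proj x) :
    st (st x d) (rev d) = x := by
  rcases st_cases x h with h1 | h1
  · exact st_cons _ _ h1
  · have h2 : G.ini (rev d) = G.proj (st x d) := by rw [proj_st x h, ini_rev]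
    apply Subtype.ext
    rw [st_val _ h2]
    simp [h1]

end MGraph

open MGraph

/-- the example: vertex `0` is joined to vertex `1` by three edges and to vertex `2` by two edges -/
def G0 : MGraph 3 5 := ⟨fun _ => 0, ![1, 1, 1, 2, 2]⟩

/-- the group element carried by an edge -/
def lab : Fin 5 → FreeGroup (Fin 3) := ![1, of 0, of 1, 1, of 2]

/-- the spanning tree edge parallel to a given edge -/
def bs : Fin 5 → Fin 5 := ![0, 0, 0, 3, 3]

/-- the group element carried by an oriented edge -/
def dlab (d : Fin 5 × Bool) : FreeGroup (Fin 3) := if d.2 then lab d.1 else (lab d.1)⁻¹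

lemma dlab_rev (d : Fin 5 × Bool) : dlab (rev d) = (dlab d)⁻¹ := by
  rcases d with ⟨e, _ | _⟩ <;> simp [rev, dlab]

/-- the group element carried by a walk -/
def phi : List (Fin 5 × Bool) → FreeGroup (Fin 3)
  | [] => 1
  | d :: l => phi l * dlab d

lemma phi_st (x : G0.Cover 0) {d : Fin 5 × Bool} (h : G0.ini d = G0.proj x) :
    phi (st x d).1 = phi x.1 * dlab d := by
  rcases st_cases x h with h1 | h1
  · conv_rhs => rw [h1]
    simp [phi, dlab_rev]
  · rw [h1]; rfl

/-- the fibre over the base vertex -/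
abbrev V0 : Type := {x : G0.Cover 0 // G0.proj x = 0}

lemma ini_true (e : Fin 5) : G0.ini (e, true) = 0 := rfl

lemma ter_false (e : Fin 5) : G0.ter (e, false) = 0 := rfl

lemma ini_false (e : Fin 5) : G0.ini (e, false) = G0.ter (e, true) := rfl

lemma ini_V0 (x : V0) (e : Fin 5) : G0.ini (e, true) = G0.proj x.1 := x.2.symm

/-- go out along `e` and come back along `e'` -/
def mv (e e' : Fin 5) (h : G0.ter (e, true) = G0.ter (e', true)) (x : V0) : V0 :=
  ⟨st (st x.1 (e, true)) (e', false), by
    rw [proj_st, ter_false]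
    rw [proj_st _ (ini_V0 x e), h, ini_false]⟩

lemma st_mv (e e' : Fin 5) (h : G0.ter (e, true) = G0.ter (e', true)) (x : V0) :
    st (mv e e' h x).1 (e', true) = st x.1 (e, true) :=
  st_st (d := (e', false)) _ (by rw [proj_st _ (ini_V0 x e), h, ini_false])

lemma mv_mv (e e' : Fin 5) (h : G0.ter (e, true) = G0.ter (e', true)) (x : V0) :
    mv e' e h.symm (mv e e' h x) = x := by
  apply Subtype.ext
  change st (st (mv e e' h x).1 (e', true)) (e, false) = _
  rw [st_mv]
  exact st_st (d := (e, true)) _ x.2.symm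

lemma phi_mv (e e' : Fin 5) (h : G0.ter (e, true) = G0.ter (e', true)) (x : V0) :
    phi (mv e e' h x).1.1 = phi x.1.1 * lab e * (lab e')⁻¹ := by
  change phi (st (st x.1 (e, true)) (e', false)).1 = _
  rw [phi_st, phi_st _ (ini_V0 x e)]
  · rfl
  · rw [proj_st _ (ini_V0 x e), h, ini_false]

/-- the move as a permutation -/
def mvp (e e' : Fin 5) (h : G0.ter (e, true) = G0.ter (e', true)) : Equiv.Perm V0 :=
  ⟨mv e e' h, mv e' e h.symm, mv_mv e e' h, mv_mv e' e h.symm⟩

lemma ter_bs (e : Fin 5) : G0.ter (e, true) = G0.ter (bs e, true) := by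
  revert e; decide

/-- the edge carrying a generator -/
def gen : Fin 3 → Fin 5 := ![1, 2, 4]

/-- the action of the free group on the fibre -/
def rho : FreeGroup (Fin 3) →* Equiv.Perm V0 :=
  FreeGroup.lift fun i => (mvp (gen i) (bs (gen i)) (ter_bs _))⁻¹

lemma rho_lab (e : Fin 5) (x : V0) : rho (lab e)⁻¹ x = mv e (bs e) (ter_bs e) x := by
  have h1 : ∀ i, rho (of i)⁻¹ x = mv (gen i) (bs (gen i)) (ter_bs _) x := by
    intro i
    simp [rho, mvp]
  have h2 : ∀ e, mv e e rfl x = x := fun e => by
    apply Subtype.ext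
    exact st_st (d := (e, true)) _ x.2.symm
  fin_cases e
  · exact (by simp [lab] : _ = x).trans (h2 0).symm
  · exact h1 0
  · exact h1 1
  · exact (by simp [lab] : _ = x).trans (h2 3).symm
  · exact h1 2

lemma phi_rho (g : FreeGroup (Fin 3)) : ∀ x : V0, phi (rho g⁻¹ x).1.1 = phi x.1.1 * g := by
  induction g using FreeGroup.induction_on with
  | C1 => simp
  | of i =>
    intro x
    have h1 : of i = lab (gen i) := by fin_cases i <;> rfl
    have h2 : lab (bs (gen i)) = 1 := by fin_cases i <;> rfl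
    rw [h1, rho_lab, phi_mv, h2]
    simp
  | inv_of i ih =>
    intro x
    have := ih (rho (of i) x)
    rw [← Equiv.Perm.mul_apply, ← _root_.map_mul, inv_mul_cancel, _root_.map_one,
      Equiv.Perm.one_apply] at this
    rw [this]
    simp
  | mul a b iha ihb =>
    intro x
    rw [mul_inv_rev, _root_.map_mul, Equiv.Perm.mul_apply, ihb, iha, mul_assoc]

/-- the root of the tree -/
def root : V0 := ⟨⟨[], NB.nil⟩, rfl⟩

/-- the vertex of the tree with given group element and type -/
def psi (g : FreeGroup (Fin 3)) : Fin 3 → G0.Cover 0 :=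
  ![(rho g⁻¹ root).1, st (rho g⁻¹ root).1 (0, true), st (rho g⁻¹ root).1 (3, true)]

lemma proj_psi (g : FreeGroup (Fin 3)) (v : Fin 3) : G0.proj (psi g v) = v := by
  fin_cases v
  · exact (rho g⁻¹ root).2
  · exact proj_st (d := (0, true)) _ (rho g⁻¹ root).2.symm
  · exact proj_st (d := (3, true)) _ (rho g⁻¹ root).2.symm

lemma phi_psi (g : FreeGroup (Fin 3)) (v : Fin 3) : phi (psi g v).1 = g := by
  have h := phi_rho g root
  rw [show phi root.1.1 = 1 from rfl, one_mul] at h
  fin_cases v
  · exact h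
  · exact (phi_st (d := (0, true)) _ (rho g⁻¹ root).2.symm).trans (by rw [h]; simp [dlab, lab])
  · exact (phi_st (d := (3, true)) _ (rho g⁻¹ root).2.symm).trans (by rw [h]; simp [dlab, lab])

lemma st_psi_true (g : FreeGroup (Fin 3)) (e : Fin 5) :
    st (psi g 0) (e, true) = psi (g * lab e) (G0.ter (e, true)) := by
  have h1 : ∀ g e, psi g (G0.ter (e, true)) = st (rho g⁻¹ root).1 (bs e, true) := by
    intro g e
    fin_cases e <;> rfl
  rw [h1, mul_inv_rev, _root_.map_mul, Equiv.Perm.mul_apply, rho_lab, st_mv]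
  rfl

lemma st_psi (g : FreeGroup (Fin 3)) (d : Fin 5 × Bool) :
    st (psi g (G0.ini d)) d = psi (g * dlab d) (G0.ter d) := by
  rcases d with ⟨e, _ | _⟩
  · have := st_psi_true (g * (lab e)⁻¹) e
    rw [inv_mul_cancel_right] at this
    rw [ini_false, ← this]
    exact st_st (d := (e, true)) _ (proj_psi _ _).symm
  · exact st_psi_true g e

lemma psi_phi (x : G0.Cover 0) : psi (phi x.1) (G0.proj x) = x := by
  obtain ⟨l, hl⟩ := x
  induction hl with
  | nil =>
    change (rho 1⁻¹ root).1 = _
    rw [inv_one, _root_.map_one]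
    rfl
  | cons d l h1 h2 h3 ih =>
    have := st_psi (phi l) d
    rw [h2] at this
    refine this.symm.trans ?_
    rw [show psi (phi l) (G0.endpt 0 l) = ⟨l, h1⟩ from ih]
    exact st_cons _ _ rfl

lemma psi_inj (v : Fin 3) : Function.Injective fun g => psi g v := by
  intro g g' h
  have := congrArg (fun x : G0.Cover 0 => phi x.1) h
  simpa [phi_psi] using this

lemma exists_psi (x : G0.Cover 0) : ∃ g v, x = psi g v := ⟨_, _, (psi_phi x).symm⟩

lemma G0_connected : G0.Connected := by
  have h1 : ∀ v, Relation.ReflTransGen (fun x y => ∃ d, G0.ini d = x ∧ G0.ter d = y) v 0 := by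
    intro v
    fin_cases v
    · exact .refl
    · exact .single ⟨(0, false), rfl, rfl⟩
    · exact .single ⟨(3, false), rfl, rfl⟩
  have h2 : ∀ v, Relation.ReflTransGen (fun x y => ∃ d, G0.ini d = x ∧ G0.ter d = y) 0 v := by
    intro v
    fin_cases v
    · exact .refl
    · exact .single ⟨(0, true), rfl, rfl⟩
    · exact .single ⟨(3, true), rfl, rfl⟩
  exact fun v w => (h1 v).trans (h2 w)

lemma G0_leafless : G0.Leafless := by
  unfold Leafless
  decide

end Pool.Agent.MP_a3b80b_mp.H38
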