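import Mathlib

/-!
Periodic Jacobi matrices on universal covering trees: the definitions used in the statement.
-/

open scoped lp

namespace Pool.Agent.MP_a3b80b_mp.H38

/-- A finite multigraph with `p` vertices and `q` edges (multiple edges and loops allowed): each
edge has two endpoints. -/
structure MGraph (p q : ℕ) where
  /-- first endpoint -/
  src : Fin q → Fin p
  /-- second endpoint -/
  tgt : Fin q → Fin p

namespace MGraph

variable {p q : ℕ} (G : MGraph p q)

/-- initial vertex of an oriented edge `(e, true)` or `(e, false)` -/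
def ini (d : Fin q × Bool) : Fin p := if d.2 then G.src d.1 else G.tgt d.1

/-- terminal vertex of an oriented edge -/
def ter (d : Fin q × Bool) : Fin p := if d.2 then G.tgt d.1 else G.src d.1

/-- the same edge with the opposite orientation -/
def rev (d : Fin q × Bool) : Fin q × Bool := (d.1, !d.2)

/-- any two vertices are joined by a walk -/
def Connected : Prop :=
  ∀ v w, Relation.ReflTransGen (fun x y => ∃ d, G.ini d = x ∧ G.ter d = y) v w

/-- every vertex has degree at least two (a loop counts twice) -/
def Leafless : Prop := ∀ v, 2 ≤ (Finset.univ.filter fun d => G.ini d = v).card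

/-- end vertex of a walk from `v₀`; the list has the most recent oriented edge first -/
def endpt (v₀ : Fin p) : List (Fin q × Bool) → Fin p
  | [] => v₀
  | d :: _ => G.ter d

/-- non-backtracking walks starting at `v₀` -/
inductive NB (v₀ : Fin p) : List (Fin q × Bool) → Prop
  | nil : NB v₀ []
  | cons (d : Fin q × Bool) (l : List (Fin q × Bool)) : NB v₀ l → G.ini d = G.endpt v₀ l →
      l.head? ≠ some (rev d) → NB v₀ (d :: l)

theorem NB.tail {G : MGraph p q} {v₀ : Fin p} {l : List (Fin q × Bool)} (h : G.NB v₀ l) :
    G.NB v₀ l.tail := by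
  cases h with
  | nil => exact NB.nil
  | cons d l h _ _ => exact h

/-- vertices of the universal covering tree: non-backtracking walks from the base vertex -/
abbrev Cover (v₀ : Fin p) : Type := {l : List (Fin q × Bool) // G.NB v₀ l}

/-- the covering projection on vertices -/
def proj {v₀ : Fin p} (x : G.Cover v₀) : Fin p := G.endpt v₀ x.1

/-- the neighbour of the tree vertex `x` across the lift of the oriented edge `d` leaving
`proj x`: erase the last edge if `d` retraces it, otherwise append `d` -/
def nbr {v₀ : Fin p} (x : G.Cover v₀) (d : {d : Fin q × Bool // G.ini d = G.proj x}) :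
    G.Cover v₀ :=
  if h : x.1.head? = some (rev d.1) then ⟨x.1.tail, x.2.tail⟩
  else ⟨d.1 :: x.1, NB.cons d.1 x.1 x.2 d.2 h⟩

/-- the Hilbert space `ℓ²` of the covering tree -/
noncomputable abbrev Hilb (v₀ : Fin p) : Type := ℓ²(G.Cover v₀, ℂ)

/-- bounded operators on it -/
noncomputable abbrev Op (v₀ : Fin p) : Type := G.Hilb v₀ →L[ℂ] G.Hilb v₀

/-- the value at the tree vertex `x` of the lifted Jacobi matrix with vertex parameters
`θ (inl v)` and edge parameters `θ (inr e)`, applied to the function `u` -/
noncomputable def jacobi {v₀ : Fin p} (θ : EuclideanSpace ℝ (Fin p ⊕ Fin q))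
    (u : G.Cover v₀ → ℂ) (x : G.Cover v₀) : ℂ :=
  (θ (Sum.inl (G.proj x)) : ℂ) * u x +
    ∑ d : {d : Fin q × Bool // G.ini d = G.proj x}, (θ (Sum.inr d.1.1) : ℂ) * u (G.nbr x d)

/-- `H` is the lifted Jacobi matrix with parameters `θ` -/
def IsLift (v₀ : Fin p) (θ : EuclideanSpace ℝ (Fin p ⊕ Fin q)) (H : G.Op v₀) : Prop :=
  ∀ (u : G.Hilb v₀) (x : G.Cover v₀), H u x = G.jacobi θ u x

end MGraph

/-- the parameter space: all edge parameters are positive -/
def Param (p q : ℕ) : Set (EuclideanSpace ℝ (Fin p ⊕ Fin q)) := {θ | ∀ e, 0 < θ (Sum.inr e)}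

/-- the gaps of a set of reals: bounded connected components of its complement -/
def gaps (s : Set ℝ) : Set (Set ℝ) :=
  {C | Bornology.IsBounded C ∧ ∃ x ∈ sᶜ, C = connectedComponentIn sᶜ x}

/-- the real points of the spectrum of a bounded operator -/
def spec {E : Type} [NormedAddCommGroup E] [NormedSpace ℂ E] (H : E →L[ℂ] E) : Set ℝ :=
  {t : ℝ | (t : ℂ) ∈ spectrum ℂ H}

/-- the parameters with all gaps open: the lifted operator has exactly `p - 1` gaps -/
def MGraph.allOpen {p q : ℕ} (G : MGraph p q) (v₀ : Fin p) :
    Set (EuclideanSpace ℝ (Fin p ⊕ Fin q)) :=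
  {θ ∈ Param p q | ∃ H, G.IsLift v₀ θ H ∧ (gaps (spec H)).encard + 1 = p}

end Pool.Agent.MP_a3b80b_mp.H38
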