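import Pool.Agent.MP_a3b80b_mp.H38.Main

/-!
The Hausdorff dimension of the closed gap locus of the example.
-/

open Set Filter Topology
open scoped ENNReal

namespace Pool.Agent.MP_a3b80b_mp.H38

lemma spec_eq {E : Type} [NormedAddCommGroup E] [InnerProductSpace ℂ E] [CompleteSpace E]
    (H : E →L[ℂ] E) : spec H = spectrum ℝ H :=
  Set.ext fun t => spectrum.algebraMap_mem_iff (R := ℝ) ℂ (a := H) (r := t)

/-- a parameter from its coordinates -/
def mkP (b : Fin 3 → ℝ) (a : Fin 5 → ℝ) : Par := WithLp.toLp 2 (Sum.elim b a)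

/-- all gaps open -/
def OO : Set Par := {θ ∈ Param 3 5 | (gaps (spectrum ℝ (HH θ))).encard = 2}

lemma dim_le {f : (Fin 7 → ℝ) → Par} {s : Set (Fin 7 → ℝ)} (hf : ContDiffOn ℝ 1 f s)
    (hs : Convex ℝ s) : dimH (f '' s) ≤ 7 :=
  (hf.dimH_image_le hs subset_rfl).trans ((dimH_mono (subset_univ _)).trans
    (by rw [Real.dimH_univ_pi_fin]; norm_num))

/-- parametrisation of the main hypersurface -/
noncomputable def f3 (w : Fin 7 → ℝ) : Par :=
  mkP ![w 0 - (w 5 ^ 2 + w 6 ^ 2) * (w 0 - w 1)⁻¹, w 0, w 1] ![w 2, w 3, w 4, w 5, w 6]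

lemma f3_smooth {s : Set (Fin 7 → ℝ)} (hs : ∀ w ∈ s, w 0 - w 1 ≠ 0) : ContDiffOn ℝ 1 f3 s := by
  rw [contDiffOn_euclidean]
  rintro (i | i) <;> fin_cases i <;> simp [f3, mkP] <;> fun_prop (disch := assumption)

lemma dim_upper : dimH (Param 3 5 \ OO) ≤ 7 := by
  let f1 : (Fin 7 → ℝ) → Par := fun w => mkP ![w 0, w 1, w 1] ![w 2, w 3, w 4, w 5, w 6]
  let f2 : (Fin 7 → ℝ) → Par := fun w => mkP ![w 0, w 1, w 2] ![w 3, w 4, w 5, w 6, w 6]
  have h1 : ContDiffOn ℝ 1 f1 univ := by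
    rw [contDiffOn_euclidean]
    rintro (i | i) <;> fin_cases i <;> simp [f1, mkP] <;> fun_prop
  have h2 : ContDiffOn ℝ 1 f2 univ := by
    rw [contDiffOn_euclidean]
    rintro (i | i) <;> fin_cases i <;> simp [f2, mkP] <;> fun_prop
  have c1 : Convex ℝ {w : Fin 7 → ℝ | w 0 - w 1 < 0} :=
    convex_halfSpace_lt ⟨fun x y => by simp; ring, fun c x => by simp; ring⟩ 0
  have c2 : Convex ℝ {w : Fin 7 → ℝ | 0 < w 0 - w 1} :=
    convex_halfSpace_gt ⟨fun x y => by simp; ring, fun c x => by simp; ring⟩ 0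
  have hsub : Param 3 5 \ OO ⊆ (f1 '' univ ∪ f2 '' univ) ∪
      (f3 '' {w | w 0 - w 1 < 0} ∪ f3 '' {w | 0 < w 0 - w 1}) := by
    rintro θ ⟨hθ, hO⟩
    by_cases hb : θ (.inl 1) = θ (.inl 2)
    · refine Or.inl (Or.inl ⟨![θ (.inl 0), θ (.inl 1), θ (.inr 0), θ (.inr 1), θ (.inr 2),
        θ (.inr 3), θ (.inr 4)], trivial, ?_⟩)
      ext (i | i) <;> fin_cases i <;> simp [f1, mkP, hb]
    by_cases ha : θ (.inr 3) = θ (.inr 4)
    · refine Or.inl (Or.inr ⟨![θ (.inl 0), θ (.inl 1), θ (.inl 2), θ (.inr 0), θ (.inr 1),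
        θ (.inr 2), θ (.inr 3)], trivial, ?_⟩)
      ext (i | i) <;> fin_cases i <;> simp [f2, mkP, ha]
    have ht : tt θ = 0 := by
      by_contra ht
      exact hO ⟨hθ, all_open hθ hb ha ht⟩
    have he : f3 ![θ (.inl 1), θ (.inl 2), θ (.inr 0), θ (.inr 1), θ (.inr 2), θ (.inr 3),
        θ (.inr 4)] = θ := by
      unfold tt at ht
      ext (i | i) <;> fin_cases i <;> simp [f3, mkP]
      linarith
    rcases lt_or_gt_of_ne (sub_ne_zero.2 hb) with h | h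
    · exact Or.inr (Or.inl ⟨_, by simpa using h, he⟩)
    · exact Or.inr (Or.inr ⟨_, by simpa using h, he⟩)
  refine (dimH_mono hsub).trans ?_
  simp only [dimH_union, sup_le_iff]
  exact ⟨⟨dim_le h1 convex_univ, dim_le h2 convex_univ⟩,
    dim_le (f3_smooth fun w hw => ne_of_lt hw) c1, dim_le (f3_smooth fun w hw => ne_of_gt hw) c2⟩

lemma dim_lower : 7 ≤ dimH (Param 3 5 \ OO) := by
  let pr : Par →L[ℝ] (Fin 7 → ℝ) := ContinuousLinearMap.pi fun i => EuclideanSpace.proj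
    ((![.inl 1, .inl 2, .inr 0, .inr 1, .inr 2, .inr 3, .inr 4] : Fin 7 → Fin 3 ⊕ Fin 5) i)
  let U : Set (Fin 7 → ℝ) := {w | w 0 < w 1 ∧ 0 < w 2 ∧ 0 < w 3 ∧ 0 < w 4 ∧ 0 < w 5 ∧ 0 < w 6 ∧
    w 2 ^ 2 < w 3 ^ 2 + w 4 ^ 2 ∧ w 3 ^ 2 < w 2 ^ 2 + w 4 ^ 2 ∧ w 4 ^ 2 < w 2 ^ 2 + w 3 ^ 2}
  have hU : IsOpen U := by
    simp only [U, ofPred_and]
    repeat' apply IsOpen.inter
    all_goals exact isOpen_lt (by fun_prop) (by fun_prop)
  have h0 : (![0, 1, 1, 1, 1, 1, 1] : Fin 7 → ℝ) ∈ U := by simp [U]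
  have hsub : U ⊆ pr '' (Param 3 5 \ OO) := by
    rintro w ⟨a0, a2, a3, a4, a5, a6, c1, c2, c3⟩
    have hθ : f3 w ∈ Param 3 5 := by
      intro e
      fin_cases e <;> simpa [f3, mkP]
    refine ⟨f3 w, ⟨hθ, fun hO => ?_⟩, ?_⟩
    · refine not_all_open hθ ?_ ?_ ?_ ?_ ?_ hO.2
      · simpa [f3, mkP] using a0.ne
      · simp [tt, f3, mkP]
      · simpa [f3, mkP] using c1.le
      · simpa [f3, mkP] using c2.le
      · simpa [f3, mkP] using c3.le
    · ext i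
      fin_cases i <;> simp [pr, f3, mkP]
  have h1 := Real.dimH_of_mem_nhds (hU.mem_nhds h0)
  simp only [Module.finrank_fintype_fun_eq_card, Fintype.card_fin, Nat.cast_ofNat] at h1
  rw [← h1]
  exact (dimH_mono hsub).trans (pr.lipschitz.dimH_image_le _)

lemma dense_OO : Param 3 5 ⊆ closure OO := by
  have hd : Dense (Param 3 5 \ OO)ᶜ := by
    refine dense_compl_of_dimH_lt_finrank (dim_upper.trans_lt ?_)
    simp only [finrank_euclideanSpace, Fintype.card_sum, Fintype.card_fin]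
    norm_num
  have ho : IsOpen (Param 3 5) := by
    have : Param 3 5 = ⋂ e : Fin 5, {θ : Par | 0 < θ (.inr e)} := by
      ext θ; simp [Param]
    rw [this]
    exact isOpen_iInter_of_finite fun e => isOpen_lt continuous_const (by fun_prop)
  refine (hd.open_subset_closure_inter ho).trans (closure_mono ?_)
  rintro θ ⟨h1, h2⟩
  by_contra h3
  exact h2 ⟨h1, h3⟩

end Pool.Agent.MP_a3b80b_mp.H38
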