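import Pool.Agent.MP_a3b80b_mp.H38.NoProj

/-!
Estimates for the operators `a + b g + c h` in the group algebra of a free group.
-/

open Complex
open scoped InnerProductSpace Real lp

set_option linter.unusedSectionVars false

attribute [-simp] lp.coeFn_add lp.coeFn_sub lp.coeFn_smul lp.coeFn_neg AddSubgroup.coe_add
  AddSubgroupClass.coe_sub AddMemClass.coe_add NegMemClass.coe_neg AddSubgroup.coe_sub
  AddSubgroup.coe_neg Complex.coe_smul

namespace Pool.Agent.MP_a3b80b_mp.H38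

variable {α : Type} [DecidableEq α] [Fintype α]

open FreeGroup

/-- the operator `a + b g + c h` -/
noncomputable def Aop (a b c : ℝ) (g h : FreeGroup α) : K α →L[ℂ] K α :=
  (a : ℂ) • 1 + (b : ℂ) • Rt g + (c : ℂ) • Rt h

lemma Aop_apply (a b c : ℝ) (g h : FreeGroup α) (u : K α) (x) :
    Aop a b c g h u x = a * u x + b * u (x * g) + c * u (x * h) := by
  simp [Aop]

lemma Aop_swap (a b c : ℝ) (g h : FreeGroup α) : Aop a b c g h = Aop a c b h g := by
  unfold Aop; abel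

lemma adjoint_Aop (a b c : ℝ) (g h : FreeGroup α) :
    ContinuousLinearMap.adjoint (Aop a b c g h) = Aop a b c g⁻¹ h⁻¹ := by
  simp only [Aop, map_add, LinearIsometryEquiv.map_smulₛₗ, adjoint_Rt, Complex.conj_ofReal]
  congr 3
  exact ContinuousLinearMap.adjoint_id

lemma inner_Aop (a b c : ℝ) (g h : FreeGroup α) (u v : K α) :
    ⟪Aop a b c g h u, v⟫_ℂ = ⟪u, Aop a b c g⁻¹ h⁻¹ v⟫_ℂ := by
  rw [← adjoint_Aop, ContinuousLinearMap.adjoint_inner_right]

lemma good_Aop (a b c : ℝ) (l m : α × Bool) : Good (Aop a b c (lt l) (lt m)) :=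
  ((good_one.smul _).add ((good_Rt l).smul _)).add ((good_Rt m).smul _)

lemma Lt_Aop (a b c : ℝ) (g h y : FreeGroup α) (u : K α) :
    Lt y (Aop a b c g h u) = Aop a b c g h (Lt y u) := by
  ext x
  simp [Aop_apply, mul_assoc]

/-- the automorphism inverting all generators -/
def th : FreeGroup α →* FreeGroup α := FreeGroup.lift fun i => (of i)⁻¹

@[simp] lemma th_of (i : α) : th (of i) = (of i)⁻¹ := by simp [th]

lemma th_invol : Function.Involutive (th : FreeGroup α → FreeGroup α) := by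
  intro x
  have : (th.comp th : FreeGroup α →* FreeGroup α) = MonoidHom.id _ := by
    ext i; simp
  exact DFunLike.congr_fun this x

/-- the unitary given by the automorphism -/
noncomputable def Ut : K α →L[ℂ] K α := pe th_invol.toPerm

@[simp] lemma Ut_apply (u : K α) (x) : Ut u x = u (th x) := rfl

lemma norm_Ut (u : K α) : ‖Ut u‖ = ‖u‖ := norm_pe _ _

lemma Ut_A (a b c : ℝ) (i j : α) (u : K α) :
    Ut (Aop a b c (of i) (of j) u) = Aop a b c (of i)⁻¹ (of j)⁻¹ (Ut u) := by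
  ext x
  simp [Aop_apply]

lemma Ut_B (a b c : ℝ) (i j : α) (u : K α) :
    Ut (Aop a b c (of i)⁻¹ (of j)⁻¹ u) = Aop a b c (of i) (of j) (Ut u) := by
  ext x
  simp [Aop_apply]

lemma isUnit_of_below {a b c : ℝ} {i j : α} {δ : ℝ} (hδ : 0 < δ)
    (h : ∀ u : K α, δ * ‖u‖ ^ 2 ≤ ‖Aop a b c (of i)⁻¹ (of j)⁻¹ u‖ ^ 2) :
    IsUnit (Aop a b c (of i) (of j)) := by
  have h1 : IsUnit (Aop a b c (of i) (of j) * Aop a b c (of i)⁻¹ (of j)⁻¹) := by
    refine Pos.isUnit ⟨δ, hδ, fun u => ?_⟩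
    rw [mul_apply_eq_comp, inner_Aop, inner_self_eq_norm_sq_to_K]
    simpa [← Complex.ofReal_pow] using h u
  have h2 : IsUnit (Aop a b c (of i)⁻¹ (of j)⁻¹ * Aop a b c (of i) (of j)) := by
    refine Pos.isUnit ⟨δ, hδ, fun u => ?_⟩
    rw [mul_apply_eq_comp, inner_Aop, inv_inv, inv_inv, inner_self_eq_norm_sq_to_K]
    have := h (Ut u)
    rw [← Ut_A, norm_Ut, norm_Ut] at this
    simpa [← Complex.ofReal_pow] using this
  obtain ⟨R, hR⟩ := h1.exists_right_inv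
  obtain ⟨L, hL⟩ := h2.exists_left_inv
  rw [mul_assoc] at hR
  rw [← mul_assoc] at hL
  have := left_inv_eq_right_inv hL hR
  exact ⟨⟨_, _, hR, this ▸ hL⟩, rfl⟩

/-- the half tree of words starting with the generator `i` -/
def DD (i : α) : Set (FreeGroup α) := {x | hd x = some (i, true)}

lemma cut {a b c : ℝ} {i j : α} (hij : i ≠ j) (v : K α) :
    Aop a b c (of i) (of j) (ind (DD i) v) =
      ind (DD i) (Aop a b c (of i) (of j) v) + (b * v (of i)) • dl 1 := by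
  ext x
  have h2 : x * of j ∈ DD i ↔ x ∈ DD i :=
    hd_mul_iff (j, true) (i, true) x (by simp [hij.symm]) (by simp)
  by_cases hx : x = 1
  · subst hx
    have h3 : (1 : FreeGroup α) ∉ DD i := by simp [DD]
    have h4 : (of i : FreeGroup α) ∈ DD i := hd_lt (i, true)
    rw [one_mul] at h2
    simp [Aop_apply, ind_apply, h2, h3, h4]
  · have h1 : x * of i ∈ DD i ↔ x ∈ DD i :=
      hd_mul_iff (i, true) (i, true) x (by simp [hx]) (by simp)
    by_cases hD : x ∈ DD i <;> simp [Aop_apply, ind_apply, h1, h2, hD, dl_ne hx]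

lemma ker_B {a b c : ℝ} {i j : α} (hij : i ≠ j) (hb : b ≠ 0) {u : K α}
    (hu : Aop a b c (of i)⁻¹ (of j)⁻¹ u = 0) : u = 0 := by
  have key : ∀ u v : K α, Aop a b c (of i)⁻¹ (of j)⁻¹ u = 0 → Aop a b c (of i) (of j) v = 0 →
      u 1 = 0 ∨ v (of i) = 0 := by
    intro u v hu hv
    have h1 := inner_Aop a b c (of i) (of j) (ind (DD i) v) u
    rw [hu, cut hij, hv] at h1
    simp only [map_zero, zero_add, inner_smul_left, inner_dl_left, inner_zero_right,
      mul_eq_zero, map_eq_zero, Complex.ofReal_eq_zero, hb, false_or] at h1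
    exact h1.symm
  ext x
  have h1 : Aop a b c (of i)⁻¹ (of j)⁻¹ (Lt x u) = 0 := by rw [← Lt_Aop, hu, map_zero]
  have h2 : Aop a b c (of i) (of j) (Lt (th x * (of i)⁻¹) (Ut u)) = 0 := by
    rw [← Lt_Aop, ← Ut_B, hu, map_zero, map_zero]
  simpa [th_invol x] using key _ _ h1 h2

lemma pyth {E : Type*} [NormedAddCommGroup E] [InnerProductSpace ℂ E] {p q r : E} (a c : ℝ)
    (h1 : ⟪p, q⟫_ℂ = 0) (h2 : ⟪p, r⟫_ℂ = 0) (h3 : ⟪q, r⟫_ℂ = 0) :
    ‖p - (a : ℂ) • q - (c : ℂ) • r‖ ^ 2 = ‖p‖ ^ 2 + a ^ 2 * ‖q‖ ^ 2 + c ^ 2 * ‖r‖ ^ 2 := by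
  rw [@norm_sub_sq ℂ, @norm_sub_sq ℂ]
  simp [inner_sub_left, inner_smul_left, inner_smul_right, h1, h2, h3, norm_smul, mul_pow]

lemma dom_of {a b c N : ℝ} (hN : 0 ≤ N) (h : b ^ 2 * N = 1 + a ^ 2 * N + c ^ 2 * N) :
    a ^ 2 + c ^ 2 < b ^ 2 := by
  by_contra hc
  push Not at hc
  nlinarith [mul_le_mul_of_nonneg_right hc hN]

lemma case_b {a b c : ℝ} {i j : α} (hij : i ≠ j)
    (hA : Function.Injective (Aop a b c (of i) (of j))) {u : K α}
    (hu : Aop a b c (of i) (of j) u = dl 1) (h : ∀ x, x ∉ DD i → u x = 0) :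
    a ^ 2 + c ^ 2 < b ^ 2 := by
  have h1 : (b : ℂ) • u = dl (of i) - (a : ℂ) • Lt (of i)⁻¹ u -
      (c : ℂ) • Lt (of j * (of i)⁻¹) u := by
    apply hA
    simp only [map_smul, map_sub, ← Lt_Aop, hu, Lt_dl]
    simp only [Aop, add_apply, smul_apply, one_apply_eq_self, Rt_dl, inv_inv, mul_one,
      mul_inv_cancel, mul_inv_rev]
    abel
  have hj : ∀ y : FreeGroup α, y ∈ DD i → of j * y ∉ DD i := by
    intro y hy hy'
    have : hd (of j * y) = some (j, true) :=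
      hd_lt_mul (l := (j, true)) (by rw [show hd y = _ from hy]; simp)
    rw [show hd (of j * y) = _ from hy'] at this
    simp [hij] at this
  have h2 := pyth (p := dl (of i)) (q := Lt (of i)⁻¹ u) (r := Lt (of j * (of i)⁻¹) u) a c
    (by simpa using h 1 (by simp [DD]))
    (by
      have : (of j : FreeGroup α) ∉ DD i := by
        intro hc
        have h3 : hd (of j : FreeGroup α) = some (j, true) := hd_lt (j, true)
        rw [show hd (of j) = _ from hc] at h3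
        simp [hij] at h3
      simpa using h _ this)
    (inner_eq_zero_of_disjoint fun x => by
      by_cases hx : (of i)⁻¹ * x ∈ DD i
      · right
        simpa [mul_assoc] using h _ (hj _ hx)
      · left
        simpa using h _ hx)
  rw [← h1, norm_smul, norm_Lt, norm_Lt, norm_dl, mul_pow] at h2
  exact dom_of (sq_nonneg ‖u‖) (by simpa using h2)

lemma case_a {a b c : ℝ} {i j : α} (hij : i ≠ j)
    (hA : Function.Injective (Aop a b c (of i) (of j))) {u : K α}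
    (hu : Aop a b c (of i) (of j) u = dl 1) (h : ∀ x, x ∈ DD i → u x = 0)
    (h' : ∀ x, x ∈ DD j → u x = 0) : b ^ 2 + c ^ 2 < a ^ 2 := by
  have h1 : (a : ℂ) • u = dl 1 - (b : ℂ) • Lt (of i) u - (c : ℂ) • Lt (of j) u := by
    apply hA
    simp only [map_smul, map_sub, ← Lt_Aop, hu, Lt_dl]
    simp only [Aop, add_apply, smul_apply, one_apply_eq_self, Rt_dl, one_mul, mul_one]
    abel
  have h2 := pyth (p := dl 1) (q := Lt (of i) u) (r := Lt (of j) u) b c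
    (by simpa using h (of i) (hd_lt (i, true)))
    (by simpa using h' (of j) (hd_lt (j, true)))
    (inner_eq_zero_of_disjoint fun x => by
      by_cases hx : hd x = some (i, false)
      · right
        refine h' _ (hd_lt_mul (l := (j, true)) ?_)
        rw [hx]
        simp [hij]
      · left
        exact h _ (hd_lt_mul (l := (i, true)) hx))
  rw [← h1, norm_smul, norm_Lt, norm_Lt, norm_dl, mul_pow] at h2
  exact dom_of (sq_nonneg ‖u‖) (by simpa using h2)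

lemma ind_dichotomy {a b c : ℝ} {i j : α} (hij : i ≠ j)
    (hA : Function.Injective (Aop a b c (of i) (of j))) {u : K α}
    (hu : Aop a b c (of i) (of j) u = dl 1) :
    (∀ x, x ∈ DD i → u x = 0) ∨ (∀ x, x ∉ DD i → u x = 0) := by
  have h1 : ind (DD i) u = (b * u (of i)) • u := by
    apply hA
    rw [cut hij, map_smul, hu]
    have : ind (DD i) (dl (1 : FreeGroup α)) = 0 := by
      ext x
      by_cases hx : x = 1
      · subst hx
        simp [ind_apply, DD]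
      · simp [ind_apply, dl_ne hx]
    rw [this, zero_add]
  by_cases h2 : (b : ℂ) * u (of i) = 0
  · left
    intro x hx
    have := congrArg (fun v : K α => v x) h1
    simpa [ind_of_mem _ hx, h2] using this
  · right
    intro x hx
    have := congrArg (fun v : K α => v x) h1
    simp only [ind_of_not _ hx, l2_smul] at this
    exact (mul_eq_zero.1 this.symm).resolve_left h2

/-- invertibility forces one coefficient to dominate -/
theorem dominant {a b c : ℝ} {i j : α} (hij : i ≠ j) (hA : IsUnit (Aop a b c (of i) (of j))) :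
    b ^ 2 + c ^ 2 < a ^ 2 ∨ a ^ 2 + c ^ 2 < b ^ 2 ∨ a ^ 2 + b ^ 2 < c ^ 2 := by
  have hb := ContinuousLinearMap.isUnit_iff_bijective.1 hA
  obtain ⟨u, hu⟩ := hb.2 (dl 1)
  have hi := hb.1
  rcases ind_dichotomy hij hi hu with h1 | h1
  · have hi' := hi
    have hu' := hu
    rw [Aop_swap] at hi' hu'
    rcases ind_dichotomy hij.symm hi' hu' with h2 | h2
    · exact Or.inl (case_a hij hi hu h1 h2)
    · exact Or.inr (Or.inr (case_b hij.symm hi' hu' h2))
  · exact Or.inr (Or.inl (case_b hij hi hu h1))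

lemma bessel (k : α) {v : K α} (hv : ∀ x, x ∉ avoid k → v x = 0) (u : K α) (s : Finset (tv k)) :
    ∑ w ∈ s, ‖⟪Lt (w : FreeGroup α)⁻¹ v, u⟫_ℂ‖ ^ 2 ≤ ‖v‖ ^ 2 * ‖u‖ ^ 2 := by
  by_cases h0 : v = 0
  · simp [h0]
  have hn : ‖v‖ ≠ 0 := norm_ne_zero_iff.2 h0
  have ho : Orthonormal ℂ fun w : tv k => ((‖v‖⁻¹ : ℝ) : ℂ) • Lt (w : FreeGroup α)⁻¹ v := by
    refine ⟨fun w => by simp [norm_smul, norm_Lt, hn], fun w w' hne => ?_⟩
    have : ⟪Lt (w : FreeGroup α)⁻¹ v, Lt (w' : FreeGroup α)⁻¹ v⟫_ℂ = 0 := by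
      refine inner_eq_zero_of_disjoint fun x => ?_
      by_contra hc
      push Not at hc
      have h1 : (w : FreeGroup α)⁻¹ * x ∈ avoid k := by
        by_contra h; exact hc.1 (hv _ h)
      have h2 : (w' : FreeGroup α)⁻¹ * x ∈ avoid k := by
        by_contra h; exact hc.2 (hv _ h)
      exact hne (Subtype.ext (tv_inj h1 h2 w.2 w'.2 (by simp)))
    simp [inner_smul_left, inner_smul_right, this]
  have := ho.sum_inner_products_le u (s := s)
  simp only [inner_smul_left, norm_mul, Complex.conj_ofReal, Complex.norm_real, norm_inv,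
    norm_norm, mul_pow, ← Finset.mul_sum] at this
  rw [inv_pow, inv_mul_le_iff₀ (by positivity)] at this
  exact this

lemma transversal_est {a b c : ℝ} {i j k : α} (hij : i ≠ j) (hik : i ≠ k) (hjk : j ≠ k)
    (hb : b ≠ 0) {η : ℝ} (hη : 0 < η) :
    ∃ M : ℝ, 0 ≤ M ∧ ∀ u : K α, ‖ind (tv k) u‖ ^ 2 ≤
      η ^ 2 * ‖u‖ ^ 2 + M * ‖Aop a b c (of i)⁻¹ (of j)⁻¹ u‖ ^ 2 := by
  set A := Aop a b c (of i) (of j) with hA
  have hd : (A.range).topologicalClosure = ⊤ := by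
    rw [Submodule.topologicalClosure_eq_top_iff, ContinuousLinearMap.orthogonal_range,
      adjoint_Aop, eq_bot_iff]
    intro u hu
    exact ker_B hij hb hu
  have hmem : dl 1 ∈ closure (A.range : Set (K α)) := by
    rw [← Submodule.topologicalClosure_coe, hd]; trivial
  obtain ⟨_, ⟨v0, rfl⟩, hv0⟩ := Metric.mem_closure_iff.1 hmem (η / 2) (by positivity)
  set v := ind (avoid k : Set (FreeGroup α)) v0 with hv
  set r := ind (avoid k : Set (FreeGroup α)) (dl 1 - A v0) with hr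
  have hr1 : ‖r‖ ≤ η / 2 := by
    refine (norm_ind_le _ _).trans ?_
    rw [← dist_eq_norm]
    exact hv0.le
  have hsum : dl 1 = A v + r := by
    ext x
    have h1 : x * of i ∈ (avoid k : Set (FreeGroup α)) ↔ x ∈ (avoid k : Set (FreeGroup α)) :=
      Subgroup.mul_mem_cancel_right _ (of_mem_avoid hik)
    have h2 : x * of j ∈ (avoid k : Set (FreeGroup α)) ↔ x ∈ (avoid k : Set (FreeGroup α)) :=
      Subgroup.mul_mem_cancel_right _ (of_mem_avoid hjk)
    by_cases hx : x ∈ (avoid k : Set (FreeGroup α))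
    · simp only [hA, hv, hr, l2_add, Aop_apply, ind_of_mem _ hx, ind_of_mem _ (h1.2 hx),
        ind_of_mem _ (h2.2 hx), l2_sub]
      ring
    · have : x ≠ 1 := by rintro rfl; exact hx (one_mem _)
      simp [hA, hv, hr, Aop_apply, ind_of_not _ hx, ind_of_not _ (mt h1.1 hx),
        ind_of_not _ (mt h2.1 hx), dl_ne this]
  refine ⟨2 * ‖v‖ ^ 2, by positivity, fun u => ?_⟩
  have hs : HasSum (fun w : tv k => ‖u w‖ ^ 2) (‖ind (tv k) u‖ ^ 2) := by
    have h1 := hasSum_norm_sq (ind (tv k) u)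
    rw [← hasSum_subtype_iff_of_support_subset (s := tv k)] at h1
    · convert h1 using 2 with w
      simp [ind_of_mem _ w.2]
    · intro x hx
      by_contra h
      simp [ind_of_not _ h] at hx
  refine hasSum_le_of_sum_le hs fun s => ?_
  have hw : ∀ w : FreeGroup α, u w =
      ⟪Lt w⁻¹ v, Aop a b c (of i)⁻¹ (of j)⁻¹ u⟫_ℂ + ⟪Lt w⁻¹ r, u⟫_ℂ := by
    intro w
    rw [← inner_Aop, ← Lt_Aop, ← inner_add_left, ← map_add, ← hsum, Lt_dl]
    simp
  have h1 := bessel k (v := v) (fun x hx => ind_of_not _ hx) (Aop a b c (of i)⁻¹ (of j)⁻¹ u) s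
  have h2 := bessel k (v := r) (fun x hx => ind_of_not _ hx) u s
  have h3 : ∀ p q : ℂ, ‖p + q‖ ^ 2 ≤ 2 * ‖p‖ ^ 2 + 2 * ‖q‖ ^ 2 := by
    intro p q
    have := norm_add_le p q
    nlinarith [norm_nonneg (p + q), norm_nonneg p, norm_nonneg q, sq_nonneg (‖p‖ - ‖q‖)]
  have h4 : ‖r‖ ^ 2 ≤ (η / 2) ^ 2 := by gcongr
  calc ∑ w ∈ s, ‖u w‖ ^ 2 ≤ ∑ w ∈ s, (2 * ‖⟪Lt (w : FreeGroup α)⁻¹ v,
          Aop a b c (of i)⁻¹ (of j)⁻¹ u⟫_ℂ‖ ^ 2 + 2 * ‖⟪Lt (w : FreeGroup α)⁻¹ r, u⟫_ℂ‖ ^ 2) :=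
        Finset.sum_le_sum fun w _ => by rw [hw]; exact h3 _ _
    _ ≤ _ := by
      rw [Finset.sum_add_distrib, ← Finset.mul_sum, ← Finset.mul_sum]
      nlinarith [mul_le_mul_of_nonneg_right h4 (sq_nonneg ‖u‖), sq_nonneg (η * ‖u‖)]

lemma inner_Rt_le (k : α) (u : K α) : ‖⟪Rt (of k) u, u⟫_ℂ‖ ≤ 2 * (‖ind (tv k) u‖ * ‖u‖) := by
  have h1 : u = ind (tv k) u + ind (tv k)ᶜ u := by
    ext x
    by_cases hx : x ∈ tv k <;> simp [ind_apply, hx]
  have h2 : ind (tv k)ᶜ (Rt (of k) u) = ind (tv k)ᶜ (Rt (of k) (ind (tv k) u)) := by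
    ext x
    by_cases hx : x ∈ tv k
    · simp [ind_apply, hx]
    · simp [ind_apply, hx, (tv_or k x).resolve_left hx]
  have h3 : ⟪Rt (of k) u, u⟫_ℂ = ⟪Rt (of k) u, ind (tv k) u⟫_ℂ +
      ⟪ind (tv k)ᶜ (Rt (of k) (ind (tv k) u)), u⟫_ℂ := by
    rw [← h2, inner_ind, ← inner_add_right, ← h1]
  rw [h3]
  have h4 := norm_inner_le_norm (𝕜 := ℂ) (Rt (of k) u) (ind (tv k) u)
  have h5 := norm_inner_le_norm (𝕜 := ℂ) (ind (tv k)ᶜ (Rt (of k) (ind (tv k) u))) u
  have h6 := norm_ind_le (tv k)ᶜ (Rt (of k) (ind (tv k) u))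
  rw [norm_Rt] at h4 h6
  have h7 := mul_le_mul_of_nonneg_right h6 (norm_nonneg u)
  refine (norm_add_le _ _).trans ?_
  nlinarith

/-- the freeness estimate -/
theorem free_est {a b c d e : ℝ} {i j k : α} (hij : i ≠ j) (hik : i ≠ k) (hjk : j ≠ k)
    (hb : b ≠ 0) {ε : ℝ} (hε : 0 < ε) :
    ∃ M : ℝ, 0 ≤ M ∧ ∀ u : K α,
      |‖Aop d e 0 (of k)⁻¹ (of k)⁻¹ u‖ ^ 2 - (d ^ 2 + e ^ 2) * ‖u‖ ^ 2| ≤
        ε * ‖u‖ ^ 2 + M * ‖Aop a b c (of i)⁻¹ (of j)⁻¹ u‖ ^ 2 := by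
  set C := 2 * |d * e| + 1 with hC
  have hC0 : 0 < C := by positivity
  set η := ε / (2 * C) with hη
  have hη0 : 0 < η := by positivity
  obtain ⟨M, hM0, hM⟩ := transversal_est (a := a) (c := c) hij hik hjk hb hη0
  refine ⟨C * M / η, by positivity, fun u => ?_⟩
  have h1 : ‖Aop d e 0 (of k)⁻¹ (of k)⁻¹ u‖ ^ 2 - (d ^ 2 + e ^ 2) * ‖u‖ ^ 2 =
      2 * (d * e) * (⟪Rt (of k) u, u⟫_ℂ).re := by
    have : Aop d e 0 (of k)⁻¹ (of k)⁻¹ u = (d : ℂ) • u + (e : ℂ) • Rt (of k)⁻¹ u := by simp [Aop]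
    rw [this, @norm_add_sq ℂ, ← adjoint_Rt]
    simp only [norm_smul, adjoint_Rt, norm_Rt, mul_pow, Complex.norm_real, Real.norm_eq_abs,
      sq_abs]
    rw [← adjoint_Rt]
    rw [inner_smul_left, inner_smul_right, ContinuousLinearMap.adjoint_inner_right]
    simp only [Complex.conj_ofReal, RCLike.re_to_complex, Complex.re_ofReal_mul]
    ring
  rw [h1, abs_mul, abs_mul, abs_two]
  have h2 := (Complex.abs_re_le_norm _).trans (inner_Rt_le k u)
  have h3 : 2 * (‖ind (tv k) u‖ * ‖u‖) ≤ η * ‖u‖ ^ 2 + ‖ind (tv k) u‖ ^ 2 / η := by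
    rw [← sub_nonneg]
    have : η * ‖u‖ ^ 2 + ‖ind (tv k) u‖ ^ 2 / η - 2 * (‖ind (tv k) u‖ * ‖u‖) =
        (η * ‖u‖ - ‖ind (tv k) u‖) ^ 2 / η := by
      field_simp
      ring
    rw [this]
    positivity
  have h4 : ‖ind (tv k) u‖ ^ 2 / η ≤
      η * ‖u‖ ^ 2 + M / η * ‖Aop a b c (of i)⁻¹ (of j)⁻¹ u‖ ^ 2 := by
    rw [div_le_iff₀ hη0]
    refine (hM u).trans (le_of_eq ?_)
    field_simp
  have h5 : ε = 2 * C * η := by rw [hη]; field_simp
  calc 2 * |d * e| * |(⟪Rt (of k) u, u⟫_ℂ).re| ≤ C * (2 * η * ‖u‖ ^ 2 +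
        M / η * ‖Aop a b c (of i)⁻¹ (of j)⁻¹ u‖ ^ 2) := by
        apply mul_le_mul (by linarith) (by linarith) (abs_nonneg _) hC0.le
    _ = _ := by rw [h5]; ring

lemma below_two {d e : ℝ} (k : α) (u : K α) :
    (|d| - |e|) ^ 2 * ‖u‖ ^ 2 ≤ ‖Aop d e 0 (of k)⁻¹ (of k)⁻¹ u‖ ^ 2 := by
  have : Aop d e 0 (of k)⁻¹ (of k)⁻¹ u = (d : ℂ) • u - (-e : ℂ) • Rt (of k)⁻¹ u := by simp [Aop]
  have h1 := abs_norm_sub_norm_le ((d : ℂ) • u) ((-e : ℂ) • Rt (of k)⁻¹ u)
  rw [← this] at h1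
  simp only [norm_smul, norm_Rt, norm_neg, Complex.norm_real, Real.norm_eq_abs] at h1
  rw [← mul_pow, sub_mul, ← sq_abs]
  gcongr

lemma B_dl_ne {a b c : ℝ} (ha : a ≠ 0) (i j : α) :
    Aop a b c (of i)⁻¹ (of j)⁻¹ (dl (1 : FreeGroup α)) ≠ 0 := by
  intro h
  have := congrArg (fun v : K α => v 1) h
  have h1 : ∀ i : α, dl (1 : FreeGroup α) (of i)⁻¹ = 0 := fun i =>
    dl_ne (inv_ne_one.2 (of_ne_one i))
  simp [Aop_apply, h1, ha] at this

end Pool.Agent.MP_a3b80b_mp.H38
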