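import Mathlib

/-!
First letters of reduced words in a free group.
-/

set_option linter.unusedSectionVars false

namespace Pool.Agent.MP_a3b80b_mp.H38

open FreeGroup

variable {α : Type*} [DecidableEq α]

/-- first letter of the reduced word -/
def hd (x : FreeGroup α) : Option (α × Bool) := x.toWord.head?

/-- a letter as a group element -/
def lt (l : α × Bool) : FreeGroup α := mk [l]

lemma lt_true (a : α) : lt (a, true) = of a := rfl

lemma lt_false (a : α) : lt (a, false) = (of a)⁻¹ := rfl

lemma lt_inv (l : α × Bool) : lt (l.1, !l.2) = (lt l)⁻¹ := by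
  rcases l with ⟨a, _ | _⟩
  · simp [lt_true, lt_false]
  · simp [lt_true, lt_false]

lemma hd_eq_none {x : FreeGroup α} : hd x = none ↔ x = 1 := by
  simp [hd]

@[simp] lemma hd_one : hd (1 : FreeGroup α) = none := hd_eq_none.2 rfl

lemma toWord_lt_mul {l : α × Bool} {x : FreeGroup α} (h : hd x ≠ some (l.1, !l.2)) :
    (lt l * x).toWord = l :: x.toWord := by
  rw [toWord_mul]
  have h1 : (lt l).toWord = [l] := by simp [lt]
  rw [h1]
  apply IsReduced.reduce_eq
  have h2 := isReduced_toWord (x := x)
  unfold hd at h
  rcases hx : x.toWord with _ | ⟨m, L⟩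
  · simp
  · rw [hx] at h h2
    simp only [List.cons_append, List.nil_append, isReduced_cons_cons]
    refine ⟨fun h3 => ?_, h2⟩
    by_contra h4
    apply h
    rcases l with ⟨a, b⟩
    rcases m with ⟨a', b'⟩
    simp only at h3 h4
    subst h3
    cases b <;> cases b' <;> simp_all

lemma hd_lt_mul {l : α × Bool} {x : FreeGroup α} (h : hd x ≠ some (l.1, !l.2)) :
    hd (lt l * x) = some l := by
  simp [hd, toWord_lt_mul h]

@[simp] lemma hd_lt (l : α × Bool) : hd (lt l) = some l := by
  simpa using hd_lt_mul (l := l) (x := 1) (by simp)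

lemma lt_ne_one (l : α × Bool) : lt l ≠ 1 := by
  intro h
  have := hd_lt l
  rw [h] at this
  simp at this

lemma exists_of_hd {l : α × Bool} {x : FreeGroup α} (h : hd x = some l) :
    ∃ y, x = lt l * y ∧ hd y ≠ some (l.1, !l.2) ∧ y.toWord.length < x.toWord.length := by
  have h2 := isReduced_toWord (x := x)
  unfold hd at h
  rcases hx : x.toWord with _ | ⟨m, L⟩
  · simp [hx] at h
  · rw [hx] at h h2
    obtain rfl : m = l := by simpa using h
    have h3 : IsReduced L := List.IsChain.tail h2
    have h4 : (mk L).toWord = L := by simp [h3.reduce_eq]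
    refine ⟨mk L, ?_, ?_, by simp [h3.reduce_eq]⟩
    · rw [← mk_toWord (x := x), hx]
      rfl
    · unfold hd
      rw [h4]
      rcases L with _ | ⟨m', L'⟩
      · simp
      · rw [isReduced_cons_cons] at h2
        intro h5
        obtain rfl : m' = (m.1, !m.2) := by simpa using h5
        simpa using h2.1

lemma hd_inv_mul {l : α × Bool} {x : FreeGroup α} (h : hd x = some l) :
    hd ((lt l)⁻¹ * x) ≠ some (l.1, !l.2) := by
  obtain ⟨y, rfl, hy, -⟩ := exists_of_hd h
  simpa using hy

lemma hd_mul_lt (l : α × Bool) (x : FreeGroup α) (h1 : x ≠ 1) (h2 : x * lt l ≠ 1) :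
    hd (x * lt l) = hd x := by
  induction hn : x.toWord.length using Nat.strong_induction_on generalizing x with
  | _ n ih =>
    rcases hx : hd x with _ | m
    · exact absurd (hd_eq_none.1 hx) h1
    obtain ⟨y, rfl, hy, hlen⟩ := exists_of_hd hx
    rw [mul_assoc]
    apply hd_lt_mul
    by_cases hy1 : y = 1
    · subst hy1
      intro h
      simp only [one_mul, hd_lt, Option.some.injEq] at h
      subst h
      apply h2
      simp [lt_inv]
    by_cases hy2 : y * lt l = 1
    · simp [hy2]
    rw [ih _ (hn ▸ hlen) y hy1 hy2 rfl]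
    exact hy

/-- membership in a half tree is unchanged by a right multiplication, with two exceptions -/
lemma hd_mul_iff (l m : α × Bool) (x : FreeGroup α) (h1 : ¬ (x = 1 ∧ l = m))
    (h2 : ¬ (x = lt m ∧ l = (m.1, !m.2))) : hd (x * lt l) = some m ↔ hd x = some m := by
  by_cases hx : x = 1
  · subst hx
    simp only [true_and] at h1
    simp [h1]
  by_cases hy : x * lt l = 1
  · have hxl : x = lt (l.1, !l.2) := by
      rw [lt_inv]; exact eq_inv_of_mul_eq_one_left hy
    rw [hy, hxl]
    simp only [hd_one, reduceCtorEq, hd_lt, Option.some.injEq, false_iff]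
    rintro rfl
    exact h2 ⟨hxl, by simp⟩
  rw [hd_mul_lt l x hx hy]

/-- the elements whose reduced word avoids the generator `k` -/
def avoid (k : α) : Subgroup (FreeGroup α) where
  carrier := {x | ∀ l ∈ x.toWord, l.1 ≠ k}
  one_mem' := by simp
  mul_mem' := by
    intro x y hx hy l hl
    have := (toWord_mul_sublist x y).subset hl
    rcases List.mem_append.1 this with h | h
    · exact hx l h
    · exact hy l h
  inv_mem' := by
    intro x hx l hl
    rw [toWord_inv] at hl
    simp only [invRev, List.mem_reverse, List.mem_map] at hl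
    obtain ⟨m, hm, rfl⟩ := hl
    exact hx m hm

lemma of_mem_avoid {k a : α} (h : a ≠ k) : of a ∈ avoid k := by
  intro l hl
  simp only [toWord_of, List.mem_singleton] at hl
  subst hl
  exact h

/-- the elements whose reduced word is empty or ends with `k` or its inverse -/
def tv (k : α) : Set (FreeGroup α) := {x | ∀ l, hd x⁻¹ = some l → l.1 = k}

lemma tv_or (k : α) (x : FreeGroup α) : x ∈ tv k ∨ x * of k ∈ tv k := by
  by_cases h : hd x⁻¹ = some (k, true)
  · left
    intro l hl
    rw [h] at hl
    obtain rfl := Option.some.inj hl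
    rfl
  · right
    intro l hl
    rw [mul_inv_rev, ← lt_false, hd_lt_mul (by simpa using h)] at hl
    obtain rfl := Option.some.inj hl
    rfl

lemma dropWhile_avoid {k : α} {g w : FreeGroup α} (hg : g ∈ avoid k) (hw : w ∈ tv k) :
    (g * w⁻¹).toWord.dropWhile (fun l => l.1 ≠ k) = w⁻¹.toWord := by
  have h1 : (g * w⁻¹).toWord = g.toWord ++ w⁻¹.toWord := by
    rw [toWord_mul]
    apply IsReduced.reduce_eq
    refine List.IsChain.append isReduced_toWord isReduced_toWord ?_
    intro a ha b hb hab
    exact absurd (hab.trans (hw b hb)) (hg a (List.mem_of_mem_getLast? ha))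
  rw [h1, List.dropWhile_append_of_pos (fun l hl => by simpa using hg l hl)]
  have h2 : ∀ l, w⁻¹.toWord.head? = some l → l.1 = k := hw
  rcases hx : w⁻¹.toWord with _ | ⟨m, L⟩
  · simp
  · rw [hx] at h2
    have := h2 m rfl
    simp [this]

lemma tv_inj {k : α} {g g' w w' : FreeGroup α} (hg : g ∈ avoid k) (hg' : g' ∈ avoid k)
    (hw : w ∈ tv k) (hw' : w' ∈ tv k) (h : w * g = w' * g') : w = w' := by
  have h1 := dropWhile_avoid (inv_mem hg) hw
  have h2 := dropWhile_avoid (inv_mem hg') hw'
  rw [← mul_inv_rev, h, mul_inv_rev, h2] at h1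
  exact inv_injective (toWord_injective h1).symm

/-- the Julg-Valette bijection from the group onto the words starting with `i` or its inverse -/
def jv (i : α) : FreeGroup α ≃. FreeGroup α where
  toFun x := some (if hd x = some (i, false) then x else of i * x)
  invFun y := if hd y = some (i, false) then some y else
    if hd y = some (i, true) then some ((of i)⁻¹ * y) else none
  inv x y := by
    constructor
    · intro h
      split_ifs at h with h1 h2
      · obtain rfl := Option.some.inj h
        simp [h1]
      · obtain rfl := Option.some.inj h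
        have := hd_inv_mul h2
        simp only [lt_true, Bool.not_true] at this
        simp [this]
    · intro h
      obtain rfl := Option.some.inj h
      by_cases h1 : hd x = some (i, false)
      · simp [h1]
      · have : hd (of i * x) = some (i, true) := hd_lt_mul (l := (i, true)) h1
        simp [h1, this]

lemma jv_apply (i : α) (x : FreeGroup α) :
    jv i x = some (if hd x = some (i, false) then x else of i * x) := rfl

lemma jv_symm_apply (i : α) (y : FreeGroup α) :
    (jv i).symm y = if hd y = some (i, false) then some y else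
      if hd y = some (i, true) then some ((of i)⁻¹ * y) else none := rfl

lemma jv_symm_ne {i : α} {y : FreeGroup α} (h : ∀ b, hd y ≠ some (i, b)) :
    (jv i).symm y = none := by
  simp [jv_symm_apply, h]

lemma jv_symm_some {i : α} {b : Bool} {y : FreeGroup α} (h : hd y = some (i, b)) :
    ∃ x, (jv i).symm y = some x := by
  cases b <;> simp [jv_symm_apply, h]

lemma hd_of_jv {i : α} {x y : FreeGroup α} (h : jv i x = some y) : ∃ b, hd y = some (i, b) := by
  by_contra hc
  push Not at hc
  have := (jv i).eq_some_iff.2 h
  rw [jv_symm_ne hc] at this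
  simp at this

lemma jv_mul {i : α} {x y : FreeGroup α} (h : jv i x = some y) (l : α × Bool)
    (h2 : y * lt l ≠ 1) : jv i (x * lt l) = some (y * lt l) := by
  obtain ⟨b, hb⟩ := hd_of_jv h
  have h1 : y ≠ 1 := by rintro rfl; simp at hb
  have h3 := hd_mul_lt l y h1 h2
  rw [← PEquiv.eq_some_iff, jv_symm_apply] at h ⊢
  rw [h3]
  split_ifs at h ⊢
  · obtain rfl := Option.some.inj h
    rfl
  · obtain rfl := Option.some.inj h
    rw [mul_assoc]

end Pool.Agent.MP_a3b80b_mp.H38
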