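import Mathlib

/-!
Perturbation determinants: if two bounded operators differ by a finite rank operator, the contour
integral of the trace of the difference of their resolvents is an integer multiple of `2πi`.
-/

open Complex MeasureTheory
open scoped InnerProductSpace Real

set_option linter.unusedSectionVars false

namespace Pool.Agent.MP_a3b80b_mp.H38

lemma hasDerivAt_det_one_add {ι : Type*} [Fintype ι] [DecidableEq ι] {N : ℂ → Matrix ι ι ℂ}
    {N' : Matrix ι ι ℂ} {z : ℂ}
    (hN : ∀ i j, HasDerivAt (fun w => N w i j) (N' i j) z) (h0 : N z = 0) :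
    HasDerivAt (fun w => (1 + N w).det) N'.trace z := by
  let F : (ι → ι → ℂ) → ℂ := fun A => (1 + Matrix.of A).det
  have hF : Differentiable ℂ F := by
    have : F = fun A => ∑ σ : Equiv.Perm ι, ((Equiv.Perm.sign σ : ℤ) : ℂ) *
        ∏ i, ((1 : Matrix ι ι ℂ) (σ i) i + A (σ i) i) := by
      funext A
      simp only [F, Matrix.det_apply', Matrix.add_apply, Matrix.of_apply]
    rw [this]
    fun_prop
  have hline : ∀ A : Matrix ι ι ℂ, fderiv ℂ F 0 (fun i j => A i j) = A.trace := by
    intro A
    have h1 : HasDerivAt (fun t : ℂ => t • (fun i j => A i j : ι → ι → ℂ))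
        (fun i j => A i j) 0 := by
      simpa using (hasDerivAt_id (0 : ℂ)).smul_const (fun i j => A i j : ι → ι → ℂ)
    have h2 : HasDerivAt (fun t : ℂ => F (t • (fun i j => A i j : ι → ι → ℂ)))
        (fderiv ℂ F 0 (fun i j => A i j)) 0 := by
      have := (hF (((0 : ℂ)) • (fun i j => A i j : ι → ι → ℂ))).hasFDerivAt.comp_hasDerivAt
        (0 : ℂ) h1
      simpa [Function.comp_def] using this
    have h3 : (fun t : ℂ => F (t • (fun i j => A i j : ι → ι → ℂ))) = fun t => 1 + A.trace * t +
        (Matrix.det (1 + (Polynomial.X : Polynomial ℂ) • A.map Polynomial.C)).divX.divX.eval t *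
          t ^ 2 := by
      funext t
      rw [← Matrix.det_one_add_smul]
      rfl
    rw [h3] at h2
    have h4 : HasDerivAt (fun t : ℂ => 1 + A.trace * t +
        (Matrix.det (1 + (Polynomial.X : Polynomial ℂ) • A.map Polynomial.C)).divX.divX.eval t *
          t ^ 2) A.trace 0 := by
      have ha := ((hasDerivAt_id (0 : ℂ)).const_mul A.trace).const_add 1
      have hb := (Polynomial.hasDerivAt
        (Matrix.det (1 + (Polynomial.X : Polynomial ℂ) • A.map Polynomial.C)).divX.divX
          (0 : ℂ)).mul (hasDerivAt_pow 2 (0 : ℂ))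
      exact (ha.add hb).congr_deriv (by simp)
    exact h2.unique h4
  have hNN : HasDerivAt (fun w => (fun i j => N w i j : ι → ι → ℂ)) (fun i j => N' i j) z := by
    rw [hasDerivAt_pi]
    intro i
    rw [hasDerivAt_pi]
    exact hN i
  have h5 := (hF (fun i j => N z i j)).hasFDerivAt.comp_hasDerivAt z hNN
  have h6 : (fun i j => N z i j : ι → ι → ℂ) = 0 := by
    funext i j; simp [h0]
  rw [h6, hline] at h5
  exact h5

/-- integrality of the winding integral -/
lemma circleIntegral_int {d f : ℂ → ℂ} {c : ℂ} {r : ℝ}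
    (hd : ∀ z ∈ Metric.sphere c |r|, HasDerivAt d (f z * d z) z)
    (hd0 : ∀ z ∈ Metric.sphere c |r|, d z ≠ 0)
    (hf : ContinuousOn f (Metric.sphere c |r|)) :
    ∃ n : ℤ, (∮ z in C(c, r), f z) = n * (2 * π * I) := by
  set φ : ℝ → ℂ := fun θ => deriv (circleMap c r) θ • f (circleMap c r θ) with hφ
  have hφc : Continuous φ := by
    have h1 : Continuous fun θ => f (circleMap c r θ) :=
      hf.comp_continuous (continuous_circleMap c r) (circleMap_mem_sphere' c r)
    have h2 : Continuous (deriv (circleMap c r)) := by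
      have : deriv (circleMap c r) = fun θ => circleMap 0 r θ * I := by
        funext θ; exact deriv_circleMap c r θ
      rw [this]
      exact (continuous_circleMap 0 r).mul continuous_const
    exact h2.smul h1
  set h : ℝ → ℂ := fun θ => d (circleMap c r θ) * exp (-∫ t in (0 : ℝ)..θ, φ t) with hh
  have hder : ∀ θ, HasDerivAt h 0 θ := by
    intro θ
    have h1 : HasDerivAt (fun θ => d (circleMap c r θ))
        ((circleMap 0 r θ * I) • (f (circleMap c r θ) * d (circleMap c r θ))) θ :=
      (hd _ (circleMap_mem_sphere' c r θ)).scomp θ (hasDerivAt_circleMap c r θ)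
    have h2 : HasDerivAt (fun θ => ∫ t in (0 : ℝ)..θ, φ t) (φ θ) θ :=
      (hφc.integral_hasStrictDerivAt 0 θ).hasDerivAt
    have h3 := h1.mul (h2.neg.cexp)
    have h4 : HasDerivAt h _ θ := h3
    convert h4 using 1
    simp only [hφ, deriv_circleMap, smul_eq_mul, Pi.neg_apply]
    ring
  have hconst : h (2 * π) = h 0 :=
    is_const_of_deriv_eq_zero (fun θ => (hder θ).differentiableAt) (fun θ => (hder θ).deriv) _ _
  have hper : circleMap c r (2 * π) = circleMap c r 0 := by
    simpa using periodic_circleMap c r 0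
  simp only [hh, hper, intervalIntegral.integral_same, neg_zero, exp_zero] at hconst
  have h7 := mul_left_cancel₀ (hd0 _ (circleMap_mem_sphere' c r 0)) hconst
  obtain ⟨n, hn⟩ := exp_eq_one_iff.1 h7
  refine ⟨-n, ?_⟩
  have : (∮ z in C(c, r), f z) = ∫ t in (0 : ℝ)..2 * π, φ t := rfl
  rw [this]
  push_cast
  linear_combination -hn

variable {E : Type*} [NormedAddCommGroup E] [InnerProductSpace ℂ E] [CompleteSpace E]

lemma res_mul {X : E →L[ℂ] E} {z : ℂ} (h : z ∈ resolventSet ℂ X) :
    resolvent X z * (algebraMap ℂ _ z - X) = 1 := by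
  unfold resolvent
  exact Ring.inverse_mul_cancel _ h

lemma mul_res {X : E →L[ℂ] E} {z : ℂ} (h : z ∈ resolventSet ℂ X) :
    (algebraMap ℂ _ z - X) * resolvent X z = 1 := by
  unfold resolvent
  exact Ring.mul_inverse_cancel _ h

lemma res_sub {X Y : E →L[ℂ] E} {z : ℂ} (hX : z ∈ resolventSet ℂ X) (hY : z ∈ resolventSet ℂ Y) :
    resolvent X z - resolvent Y z = resolvent Y z * (X - Y) * resolvent X z := by
  have h1 := res_mul hY
  have h2 := mul_res hX
  have : X - Y = (algebraMap ℂ _ z - Y) - (algebraMap ℂ _ z - X) := by abel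
  rw [this, mul_sub, sub_mul, h1, mul_assoc, h2, one_mul, mul_one]

lemma res_sub' {X Y : E →L[ℂ] E} {z : ℂ} (hX : z ∈ resolventSet ℂ X) (hY : z ∈ resolventSet ℂ Y) :
    resolvent X z - resolvent Y z = resolvent X z * (X - Y) * resolvent Y z := by
  have := res_sub hY hX
  rw [← neg_sub, this, ← neg_sub X Y]
  simp only [mul_neg, neg_mul, neg_neg]

lemma finrank_circleIntegral {ι : Type*} [Fintype ι] [DecidableEq ι] {X Y : E →L[ℂ] E}
    {a b : ι → E} (hK : ∀ u, (X - Y) u = ∑ j, ⟪b j, u⟫_ℂ • a j) {c : ℂ} {r : ℝ}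
    (hX : ∀ z ∈ Metric.sphere c |r|, z ∈ resolventSet ℂ X)
    (hY : ∀ z ∈ Metric.sphere c |r|, z ∈ resolventSet ℂ Y) :
    ∃ n : ℤ, (∮ z in C(c, r), ∑ j, ⟪b j, resolvent Y z (resolvent X z (a j))⟫_ℂ) =
      n * (2 * π * I) := by
  let M : (E →L[ℂ] E) → Matrix ι ι ℂ := fun T => Matrix.of fun i j => ⟪b i, T (a j)⟫_ℂ
  have hM : ∀ S T : E →L[ℂ] E, M (S * (X - Y) * T) = M S * M T := by
    intro S T
    ext i j
    simp only [M, Matrix.of_apply, mul_apply_eq_comp, hK, map_sum, map_smul,
      inner_sum, inner_smul_right, Matrix.mul_apply]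
    exact Finset.sum_congr rfl fun k _ => mul_comm _ _
  have hMsub : ∀ S T : E →L[ℂ] E, M (S - T) = M S - M T := by
    intro S T
    ext i j
    simp [M]
  have hinv : ∀ z ∈ Metric.sphere c |r|,
      (1 - M (resolvent Y z)) * (1 + M (resolvent X z)) = 1 := by
    intro z hz
    have := congrArg M (res_sub (hX z hz) (hY z hz))
    rw [hM, hMsub] at this
    rw [sub_mul, mul_add, mul_add, ← this]
    simp
  refine circleIntegral_int (d := fun z => (1 - M (resolvent Y z)).det) ?_ ?_ ?_
  · intro z hz
    have hdet : (1 + M (resolvent X z)).det * (1 - M (resolvent Y z)).det = 1 := by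
      rw [mul_comm, ← Matrix.det_mul, hinv z hz, Matrix.det_one]
    have hfun : (fun w : ℂ => (1 - M (resolvent Y w)).det) = fun w : ℂ =>
        (1 + (-(M (resolvent Y w) - M (resolvent Y z)) * (1 + M (resolvent X z)))).det *
          (1 - M (resolvent Y z)).det := by
      funext w
      have : 1 + (-(M (resolvent Y w) - M (resolvent Y z)) * (1 + M (resolvent X z))) =
          (1 - M (resolvent Y w)) * (1 + M (resolvent X z)) := by
        conv_lhs => rw [← hinv z hz]
        rw [hinv z hz]
        conv_lhs => enter [1]; rw [← hinv z hz]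
        rw [← add_mul]
        congr 1
        abel
      rw [this, Matrix.det_mul, mul_assoc, hdet, mul_one]
    rw [hfun]
    refine HasDerivAt.mul_const ?_ _
    have hR := spectrum.hasDerivAt_resolvent_const_left (hY z hz)
    have hent : ∀ i j, HasDerivAt (fun w => M (resolvent Y w) i j)
        (M (-resolvent Y z ^ 2) i j) z := by
      intro i j
      let L : (E →L[ℂ] E) →L[ℂ] ℂ := (innerSL ℂ (b i)).comp (ContinuousLinearMap.apply ℂ E (a j))
      exact L.hasFDerivAt.comp_hasDerivAt z hR
    have := hasDerivAt_det_one_add (z := z)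
      (N := fun w => -(M (resolvent Y w) - M (resolvent Y z)) * (1 + M (resolvent X z)))
      (N' := -(M (-resolvent Y z ^ 2)) * (1 + M (resolvent X z))) ?_ (by simp)
    · refine this.congr_deriv (Eq.symm ?_)
      have h1 : -(M (-resolvent Y z ^ 2)) = M (resolvent Y z * resolvent Y z) := by
        ext i j; simp [M, pow_two]
      have h2 : resolvent Y z * resolvent X z = resolvent Y z * resolvent Y z +
          resolvent Y z * resolvent Y z * (X - Y) * resolvent X z := by
        rw [mul_assoc (resolvent Y z), mul_assoc (resolvent Y z), ← res_sub (hX z hz) (hY z hz),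
          mul_sub]
        abel
      rw [h1, mul_add, mul_one, ← hM]
      have h3 : ∀ S T, M S + M T = M (S + T) := by
        intro S T; ext i j; simp [M]
      rw [h3, ← h2]
      simp [M, Matrix.trace]
    · intro i j
      simp only [Matrix.mul_apply, Matrix.neg_apply, Matrix.sub_apply]
      refine HasDerivAt.fun_sum fun k _ => ?_
      exact (((hent i k).sub_const _).neg).mul_const _
  · intro z hz h0
    have := congrArg Matrix.det (hinv z hz)
    rw [Matrix.det_mul, h0] at this
    simp at this
  · refine continuousOn_finsetSum _ fun j _ => ?_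
    intro z hz
    have h1 := (spectrum.hasDerivAt_resolvent_const_left (hY z hz)).continuousAt
    have h2 := (spectrum.hasDerivAt_resolvent_const_left (hX z hz)).continuousAt
    have h3 : ContinuousAt (fun z => (resolvent Y z * resolvent X z) (a j)) z :=
      (h1.mul h2).clm_apply continuousAt_const
    exact (ContinuousAt.inner (𝕜 := ℂ) continuousAt_const h3).continuousWithinAt

end Pool.Agent.MP_a3b80b_mp.H38
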