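import Mathlib

/-!
Partial isometries of `ℓ²` spaces attached to partial bijections of the index sets.
-/

open scoped InnerProductSpace lp ENNReal

set_option linter.unusedSectionVars false

namespace Pool.Agent.MP_a3b80b_mp.H38

variable {α β γ : Type*}

lemma two_toReal : (2 : ℝ≥0∞).toReal = 2 := by simp

lemma two_pos' : 0 < (2 : ℝ≥0∞).toReal := by simp

@[simp ↓] lemma l2_add (u v : ℓ²(α, ℂ)) (x : α) : (u + v : ℓ²(α, ℂ)) x = u x + v x := rfl

@[simp ↓] lemma l2_sub (u v : ℓ²(α, ℂ)) (x : α) : (u - v : ℓ²(α, ℂ)) x = u x - v x := rfl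

@[simp ↓] lemma l2_neg (u : ℓ²(α, ℂ)) (x : α) : (-u : ℓ²(α, ℂ)) x = -u x := rfl

@[simp ↓] lemma l2_smul (c : ℂ) (u : ℓ²(α, ℂ)) (x : α) : (c • u : ℓ²(α, ℂ)) x = c * u x := rfl

@[simp ↓] lemma l2_zero (x : α) : (0 : ℓ²(α, ℂ)) x = 0 := rfl

lemma sum_pb_le (f : α ≃. β) (u : ℓ²(β, ℂ)) (s : Finset α) :
    ∑ x ∈ s, ‖(f x).elim 0 u‖ ^ (2 : ℝ≥0∞).toReal ≤ ‖u‖ ^ (2 : ℝ≥0∞).toReal := by
  classical
  have h1 : ∑ x ∈ s, ‖(f x).elim 0 u‖ ^ (2 : ℝ≥0∞).toReal =
      ∑ y ∈ s.biUnion (fun x => (f x).toFinset), ‖u y‖ ^ (2 : ℝ≥0∞).toReal := by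
    rw [Finset.sum_biUnion]
    · refine Finset.sum_congr rfl fun x _ => ?_
      cases f x <;> simp
    · intro x _ x' _ hne
      rw [Function.onFun, Finset.disjoint_left]
      intro y hy hy'
      simp only [Option.mem_toFinset] at hy hy'
      exact hne (f.inj hy hy')
  rw [h1]
  exact lp.sum_rpow_le_norm_rpow two_pos' u _

/-- the operator `u ↦ u ∘ f`, extended by zero where `f` is not defined -/
noncomputable def pb (f : α ≃. β) : ℓ²(β, ℂ) →L[ℂ] ℓ²(α, ℂ) :=
  LinearMap.mkContinuous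
    { toFun := fun u => ⟨fun x => (f x).elim 0 u, memℓp_gen' (sum_pb_le f u)⟩
      map_add' := fun u v => by
        ext x
        change (f x).elim 0 (u + v : ℓ²(β, ℂ)) = (f x).elim 0 u + (f x).elim 0 v
        cases f x
        · simp only [Option.elim_none, add_zero]
        · simp only [Option.elim_some]
          rfl
      map_smul' := fun c u => by
        ext x
        change (f x).elim 0 (c • u : ℓ²(β, ℂ)) = c • (f x).elim 0 u
        cases f x <;> simp } 1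
    (fun u => by
      rw [one_mul]
      exact lp.norm_le_of_forall_sum_le two_pos' (norm_nonneg u) (sum_pb_le f u))

lemma pb_apply (f : α ≃. β) (u : ℓ²(β, ℂ)) (x : α) : pb f u x = (f x).elim 0 u := rfl

lemma norm_pb_le (f : α ≃. β) (u : ℓ²(β, ℂ)) : ‖pb f u‖ ≤ ‖u‖ :=
  lp.norm_le_of_forall_sum_le two_pos' (norm_nonneg u) (sum_pb_le f u)

lemma pb_trans (f : α ≃. β) (g : β ≃. γ) (u : ℓ²(γ, ℂ)) : pb f (pb g u) = pb (f.trans g) u := by
  ext x
  simp only [pb_apply]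
  change _ = ((f x).bind g).elim 0 u
  cases f x <;> simp [pb_apply]

open Classical in
/-- the standard basis vector -/
noncomputable def dl (x : α) : ℓ²(α, ℂ) := lp.single 2 x 1

open Classical in
lemma dl_apply (x y : α) : dl x y = if y = x then 1 else 0 := by
  simp [dl, lp.single_apply, Pi.single_apply]

@[simp] lemma dl_self (x : α) : dl x x = 1 := by simp [dl_apply]

lemma dl_ne {x y : α} (h : y ≠ x) : dl x y = 0 := by simp [dl_apply, h]

@[simp] lemma inner_dl_left (x : α) (u : ℓ²(α, ℂ)) : ⟪dl x, u⟫_ℂ = u x := by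
  classical
  unfold dl
  convert lp.inner_single_left (𝕜 := ℂ) x (1 : ℂ) u
  simp

@[simp] lemma inner_dl_right (x : α) (u : ℓ²(α, ℂ)) : ⟪u, dl x⟫_ℂ = (starRingEnd ℂ) (u x) := by
  rw [← inner_conj_symm, inner_dl_left]

@[simp] lemma norm_dl (x : α) : ‖dl x‖ = 1 := by
  classical
  unfold dl
  convert lp.norm_single (E := fun _ : α => ℂ) (p := 2) (by norm_num) x (1 : ℂ)
  simp

lemma ext_dl {F : Type*} [NormedAddCommGroup F] [NormedSpace ℂ F] {S T : ℓ²(α, ℂ) →L[ℂ] F}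
    (h : ∀ x, S (dl x) = T (dl x)) : S = T := by
  classical
  refine lp.ext_continuousLinearMap (by norm_num) fun i => ?_
  ext
  have := h i
  unfold dl at this
  simp only [ContinuousLinearMap.comp_apply, lp.singleContinuousLinearMap_apply]
  convert this

lemma pb_dl (f : α ≃. β) (y : β) : pb f (dl y) = (f.symm y).elim 0 dl := by
  ext x
  rw [pb_apply]
  rcases h : f x with _ | y'
  · rcases h' : f.symm y with _ | x'
    · simp
    · have : x ≠ x' := by
        rintro rfl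
        rw [f.eq_some_iff.1 h'] at h
        simp at h
      simp [dl_ne this]
  · by_cases hy : y' = y
    · subst hy
      rw [f.eq_some_iff.2 h]
      simp
    · rcases h' : f.symm y with _ | x'
      · simp [dl_ne hy]
      · have : x ≠ x' := by
          rintro rfl
          rw [f.eq_some_iff.1 h'] at h
          exact hy (Option.some.inj h).symm
        simp [dl_ne this, dl_ne hy]

lemma inner_pb (f : α ≃. β) (u : ℓ²(β, ℂ)) (v : ℓ²(α, ℂ)) :
    ⟪pb f u, v⟫_ℂ = ⟪u, pb f.symm v⟫_ℂ := by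
  have : innerSL ℂ (pb f u) = (innerSL ℂ u).comp (pb f.symm) := by
    refine ext_dl fun x => ?_
    simp only [innerSL_apply_apply, inner_dl_right, ContinuousLinearMap.comp_apply, pb_dl,
      PEquiv.symm_symm, pb_apply]
    cases f x <;> simp
  exact DFunLike.congr_fun this v

lemma adjoint_pb (f : α ≃. β) : ContinuousLinearMap.adjoint (pb f) = pb f.symm := by
  symm
  rw [ContinuousLinearMap.eq_adjoint_iff]
  intro u v
  rw [inner_pb, PEquiv.symm_symm]

/-- an injective map as a partial bijection -/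
noncomputable def ofInj (f : α → β) (hf : Function.Injective f) : α ≃. β where
  toFun x := some (f x)
  invFun := Function.partialInv f
  inv a b := by
    rw [hf.isPartialInv a b]
    simp

@[simp] lemma ofInj_apply (f : α → β) (hf : Function.Injective f) (x : α) :
    ofInj f hf x = some (f x) := rfl

lemma ofInj_symm_apply (f : α → β) (hf : Function.Injective f) (x : α) :
    (ofInj f hf).symm (f x) = some x := by
  rw [PEquiv.eq_some_iff]; rfl

lemma ofInj_symm_of_not (f : α → β) (hf : Function.Injective f) {y : β} (hy : ∀ x, f x ≠ y) :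
    (ofInj f hf).symm y = none := by
  rcases h : (ofInj f hf).symm y with _ | x
  · rfl
  · rw [PEquiv.eq_some_iff] at h
    exact absurd (Option.some.inj h) (hy x)

/-- pull back along a bijection -/
noncomputable def pe (e : α ≃ β) : ℓ²(β, ℂ) →L[ℂ] ℓ²(α, ℂ) := pb e.toPEquiv

@[simp] lemma pe_apply (e : α ≃ β) (u : ℓ²(β, ℂ)) (x : α) : pe e u x = u (e x) := rfl

lemma inner_pe (e : α ≃ β) (u : ℓ²(β, ℂ)) (v : ℓ²(α, ℂ)) :
    ⟪pe e u, v⟫_ℂ = ⟪u, pe e.symm v⟫_ℂ := by
  unfold pe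
  rw [inner_pb, Equiv.toPEquiv_symm]

lemma adjoint_pe (e : α ≃ β) : ContinuousLinearMap.adjoint (pe e) = pe e.symm := by
  unfold pe
  rw [adjoint_pb, Equiv.toPEquiv_symm]

lemma pe_symm_pe (e : α ≃ β) (u : ℓ²(β, ℂ)) : pe e.symm (pe e u) = u := by
  ext x; simp

lemma pe_pe_symm (e : α ≃ β) (u : ℓ²(α, ℂ)) : pe e (pe e.symm u) = u := by
  ext x; simp

lemma norm_pe (e : α ≃ β) (u : ℓ²(β, ℂ)) : ‖pe e u‖ = ‖u‖ := by
  refine le_antisymm (norm_pb_le _ _) ?_
  conv_lhs => rw [← pe_symm_pe e u]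
  exact norm_pb_le _ _

lemma pe_dl (e : α ≃ β) (y : β) : pe e (dl y) = dl (e.symm y) := by
  unfold pe
  rw [pb_dl, ← Equiv.toPEquiv_symm]
  rfl

open Classical in
/-- multiplication by an indicator function -/
noncomputable def ind (s : Set α) : ℓ²(α, ℂ) →L[ℂ] ℓ²(α, ℂ) := pb (PEquiv.ofSet s)

open Classical in
lemma ind_apply (s : Set α) (u : ℓ²(α, ℂ)) (x : α) : ind s u x = if x ∈ s then u x else 0 := by
  unfold ind
  rw [pb_apply]
  change (if x ∈ s then some x else none).elim 0 u = _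
  split_ifs <;> simp

lemma ind_of_mem {s : Set α} (u : ℓ²(α, ℂ)) {x : α} (h : x ∈ s) : ind s u x = u x := by
  simp [ind_apply, h]

lemma ind_of_not {s : Set α} (u : ℓ²(α, ℂ)) {x : α} (h : x ∉ s) : ind s u x = 0 := by
  simp [ind_apply, h]

lemma norm_ind_le (s : Set α) (u : ℓ²(α, ℂ)) : ‖ind s u‖ ≤ ‖u‖ := norm_pb_le _ _

lemma inner_ind (s : Set α) (u v : ℓ²(α, ℂ)) : ⟪ind s u, v⟫_ℂ = ⟪u, ind s v⟫_ℂ := by
  classical
  unfold ind
  rw [inner_pb, PEquiv.ofSet_symm]

lemma inner_eq_zero_of_disjoint {u v : ℓ²(α, ℂ)} (h : ∀ x, u x = 0 ∨ v x = 0) :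
    ⟪u, v⟫_ℂ = 0 := by
  rw [lp.inner_eq_tsum]
  have : ∀ x, ⟪u x, v x⟫_ℂ = 0 := fun x => by
    rcases h x with h | h <;> simp [h]
  simp only [this, tsum_zero]

lemma hasSum_norm_sq (u : ℓ²(α, ℂ)) : HasSum (fun x => ‖u x‖ ^ 2) (‖u‖ ^ 2) := by
  have := lp.hasSum_norm two_pos' u
  simpa using this

/-- trace of a finite rank operator -/
lemma hasSum_diag {ι : Type*} [Fintype ι] {T : ℓ²(α, ℂ) →L[ℂ] ℓ²(α, ℂ)} {a b : ι → ℓ²(α, ℂ)}
    (h : ∀ u, T u = ∑ j, ⟪b j, u⟫_ℂ • a j) :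
    HasSum (fun x => T (dl x) x) (∑ j, ⟪b j, a j⟫_ℂ) := by
  have : (fun x => T (dl x) x) = fun x => ∑ j, ⟪b j x, a j x⟫_ℂ := by
    funext x
    rw [h, lp.coeFn_sum]
    simp [mul_comm]
  rw [this]
  exact hasSum_sum fun j _ => lp.hasSum_inner (b j) (a j)

end Pool.Agent.MP_a3b80b_mp.H38
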