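import Pool.Agent.MP_a3b80b_mp.H38.Cover
import Pool.Agent.MP_a3b80b_mp.H38.Block
import Pool.Agent.MP_a3b80b_mp.H38.Est

/-!
The gaps of the periodic Jacobi matrices over the example graph.
-/

open Set Filter Topology
open scoped InnerProductSpace lp

set_option linter.unusedSectionVars false

attribute [-simp] lp.coeFn_add lp.coeFn_sub lp.coeFn_smul lp.coeFn_neg AddSubgroup.coe_add
  AddSubgroupClass.coe_sub AddMemClass.coe_add NegMemClass.coe_neg AddSubgroup.coe_sub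
  AddSubgroup.coe_neg Complex.coe_smul

namespace Pool.Agent.MP_a3b80b_mp.H38

open FreeGroup MGraph

/-- parameters -/
abbrev Par := EuclideanSpace ℝ (Fin 3 ⊕ Fin 5)

/-- the Hilbert space of the tree -/
noncomputable abbrev HT := ℓ²(G0.Cover 0, ℂ)

/-- the Hilbert space of the group -/
noncomputable abbrev KK := K (Fin 3)

/-- block between the vertices `0` and `1` -/
noncomputable def A1 (θ : Par) : KK →L[ℂ] KK :=
  Aop (θ (.inr 0)) (θ (.inr 1)) (θ (.inr 2)) (of 0) (of 1)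

/-- its adjoint -/
noncomputable def B1 (θ : Par) : KK →L[ℂ] KK :=
  Aop (θ (.inr 0)) (θ (.inr 1)) (θ (.inr 2)) (of 0)⁻¹ (of 1)⁻¹

/-- block between the vertices `0` and `2` -/
noncomputable def A2 (θ : Par) : KK →L[ℂ] KK := Aop (θ (.inr 3)) (θ (.inr 4)) 0 (of 2) (of 2)

/-- its adjoint -/
noncomputable def B2 (θ : Par) : KK →L[ℂ] KK := Aop (θ (.inr 3)) (θ (.inr 4)) 0 (of 2)⁻¹ (of 2)⁻¹

/-- the block operator -/
noncomputable def FF (θ : Par) (z : ℝ) : KK × KK × KK →ₗ[ℂ] KK × KK × KK :=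
  Fl (A1 θ) (B1 θ) (A2 θ) (B2 θ) (θ (.inl 0)) (θ (.inl 1)) (θ (.inl 2)) z

/-- restriction to the vertices of one type -/
noncomputable def CC (v : Fin 3) : HT →L[ℂ] KK := pb (ofInj _ (psi_inj v))

/-- extension by zero from the vertices of one type -/
noncomputable def VV (v : Fin 3) : KK →L[ℂ] HT := pb (ofInj _ (psi_inj v)).symm

@[simp] lemma CC_apply (v : Fin 3) (u : HT) (g) : CC v u g = u (psi g v) := rfl

lemma VV_apply (v w : Fin 3) (u : KK) (g) : VV v u (psi g w) = if v = w then u g else 0 := by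
  unfold VV
  rw [pb_apply]
  split_ifs with h
  · subst h
    rw [ofInj_symm_apply _ (psi_inj v) g]
    rfl
  · rw [ofInj_symm_of_not]
    · rfl
    · intro g' h'
      have := congrArg G0.proj h'
      simp only [proj_psi] at this
      exact h this

/-- splitting according to the type of the vertex -/
noncomputable def JJ (u : HT) : KK × KK × KK := (CC 0 u, CC 1 u, CC 2 u)

lemma JJ_VV (u v w : KK) : JJ (VV 0 u + VV 1 v + VV 2 w) = (u, v, w) := by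
  simp only [JJ, Prod.mk.injEq]
  refine ⟨?_, ?_, ?_⟩ <;> ext g <;> simp [VV_apply]

lemma JJ_inj : Function.Injective JJ := by
  intro u v h
  simp only [JJ, Prod.mk.injEq] at h
  ext x
  obtain ⟨g, w, rfl⟩ := exists_psi x
  fin_cases w
  · exact congrArg (fun t : KK => t g) h.1
  · exact congrArg (fun t : KK => t g) h.2.1
  · exact congrArg (fun t : KK => t g) h.2.2

lemma JJ_bij : Function.Bijective JJ := ⟨JJ_inj, fun ⟨u, v, w⟩ => ⟨_, JJ_VV u v w⟩⟩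

lemma sum_nbr (θ : Par) (u : HT) (g : FreeGroup (Fin 3)) (v : Fin 3) :
    ∑ d : {d : Fin 5 × Bool // G0.ini d = G0.proj (psi g v)},
      (θ (Sum.inr d.1.1) : ℂ) * u (G0.nbr (psi g v) d) =
    ∑ d : Fin 5 × Bool, if G0.ini d = v then
      (θ (Sum.inr d.1) : ℂ) * u (psi (g * dlab d) (G0.ter d)) else 0 := by
  rw [← Finset.sum_filter, Finset.sum_subtype (p := fun d => G0.ini d = G0.proj (psi g v))
    (F := inferInstance) _ (by simp [proj_psi])]
  refine Finset.sum_congr rfl fun d _ => ?_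
  obtain ⟨d, hd⟩ := d
  have h2 := hd
  rw [proj_psi] at h2
  subst h2
  rw [← st_psi, st, dif_pos hd]

lemma isLift_iff (θ : Par) (H : HT →L[ℂ] HT) :
    G0.IsLift 0 θ H ↔ ∀ u, JJ (H u) = FF θ 0 (JJ u) := by
  have key : ∀ (u : HT) (g : FreeGroup (Fin 3)) (v : Fin 3),
      (θ (Sum.inl (G0.proj (psi g v))) : ℂ) * u (psi g v) +
        ∑ d : {d : Fin 5 × Bool // G0.ini d = G0.proj (psi g v)},
          (θ (Sum.inr d.1.1) : ℂ) * u (G0.nbr (psi g v) d) =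
      (![(FF θ 0 (JJ u)).1, (FF θ 0 (JJ u)).2.1, (FF θ 0 (JJ u)).2.2] v) g := by
    intro u g v
    rw [sum_nbr, proj_psi]
    fin_cases v <;>
      simp [Fintype.sum_prod_type, Fin.sum_univ_five, ini, ter, G0, dlab, lab, FF, JJ, Fl_apply,
        A1, A2, B1, B2, Aop_apply] <;> ring_nf <;> rfl
  constructor
  · intro h u
    refine Prod.ext ?_ (Prod.ext ?_ ?_) <;> ext g
    · exact (h u _).trans (key u g 0)
    · exact (h u _).trans (key u g 1)
    · exact (h u _).trans (key u g 2)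
  · intro h u x
    obtain ⟨g, v, rfl⟩ := exists_psi x
    rw [jacobi, key, ← h]
    fin_cases v <;> rfl

/-- the lifted operator -/
noncomputable def HH (θ : Par) : HT →L[ℂ] HT :=
  (VV 0).comp ((θ (.inl 0) : ℂ) • CC 0 + (A1 θ).comp (CC 1) + (A2 θ).comp (CC 2)) +
  (VV 1).comp ((B1 θ).comp (CC 0) + (θ (.inl 1) : ℂ) • CC 1) +
  (VV 2).comp ((B2 θ).comp (CC 0) + (θ (.inl 2) : ℂ) • CC 2)

lemma isLift_HH (θ : Par) : G0.IsLift 0 θ (HH θ) := by
  rw [isLift_iff]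
  intro u
  simp only [HH, add_apply, ContinuousLinearMap.comp_apply, JJ_VV]
  simp [FF, JJ, Fl_apply]

lemma eq_HH {θ : Par} {H : HT →L[ℂ] HT} (h : G0.IsLift 0 θ H) : H = HH θ := by
  ext u x
  exact (h u x).trans (isLift_HH θ u x).symm

lemma notMem_spec (θ : Par) (z : ℝ) :
    z ∈ (spectrum ℝ (HH θ))ᶜ ↔ Function.Bijective (FF θ z) := by
  have h1 : JJ ∘ (HH θ - algebraMap ℝ _ z : HT →L[ℂ] HT) = FF θ z ∘ JJ := by
    funext u
    have := (isLift_iff θ _).1 (isLift_HH θ) u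
    simp only [JJ, FF, Fl_apply, Prod.mk.injEq] at this
    obtain ⟨a1, a2, a3⟩ := this
    have h0 : (algebraMap ℝ (HT →L[ℂ] HT) z) u = (z : ℂ) • u := rfl
    simp only [Function.comp_apply, JJ, sub_apply, map_sub, a1, a2, a3, FF, Fl_apply,
      Prod.mk.injEq, h0, map_smul]
    push_cast
    refine ⟨?_, ?_, ?_⟩ <;> module
  rw [mem_compl_iff, spectrum.notMem_iff, ← IsUnit.neg_iff, neg_sub,
    ContinuousLinearMap.isUnit_iff_bijective, ← Function.Bijective.of_comp_iff' JJ_bij, h1,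
    Function.Bijective.of_comp_iff _ JJ_bij]

lemma good_S (θ : Par) (z : ℝ) :
    Good (Sop (A1 θ) (B1 θ) (A2 θ) (B2 θ) (θ (.inl 0)) (θ (.inl 1)) (θ (.inl 2)) z) :=
  ((good_one.smul _).sub (((good_Aop _ _ _ (0, true) (1, true)).mul
    (good_Aop _ _ _ (0, false) (1, false))).smul _)).sub
      (((good_Aop _ _ _ (2, true) (2, true)).mul (good_Aop _ _ _ (2, false) (2, false))).smul _)

lemma sa_S (θ : Par) (z : ℝ) :
    IsSelfAdjoint (Sop (A1 θ) (B1 θ) (A2 θ) (B2 θ) (θ (.inl 0)) (θ (.inl 1)) (θ (.inl 2)) z) := by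
  have h : ∀ (t : ℝ) (T : KK →L[ℂ] KK), IsSelfAdjoint T → IsSelfAdjoint ((t : ℂ) • T) :=
    fun t T hT => IsSelfAdjoint.smul (Complex.conj_ofReal t) hT
  have h1 : B1 θ = star (A1 θ) := (adjoint_Aop _ _ _ _ _).symm
  have h2 : B2 θ = star (A2 θ) := (adjoint_Aop _ _ _ _ _).symm
  rw [h1, h2]
  exact ((h _ _ (IsSelfAdjoint.one _)).sub (h _ _ (IsSelfAdjoint.mul_star_self _))).sub
    (h _ _ (IsSelfAdjoint.mul_star_self _))

lemma units_of_below {a b c : ℝ} {i j : Fin 3} (h : Below (Aop a b c (of i)⁻¹ (of j)⁻¹)) :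
    IsUnit (Aop a b c (of i) (of j)) ∧ IsUnit (Aop a b c (of i)⁻¹ (of j)⁻¹) := by
  obtain ⟨δ, hδ, h⟩ := h
  have := isUnit_of_below hδ h
  refine ⟨this, ?_⟩
  rw [← adjoint_Aop]
  exact this.star

theorem count_iff {θ : Par} (hθ : θ ∈ Param 3 5) (hb : θ (.inl 1) ≠ θ (.inl 2)) :
    (gaps (spectrum ℝ (HH θ))).encard = 2 ↔
      Opn (PP (B1 θ) (B2 θ) (θ (.inl 0)) (θ (.inl 1)) (θ (.inl 2)))
        (QQ (B1 θ) (B2 θ) (θ (.inl 0)) (θ (.inl 1)) (θ (.inl 2))) (θ (.inl 1)) (θ (.inl 2)) ∧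
      Opn (PP (B2 θ) (B1 θ) (θ (.inl 0)) (θ (.inl 2)) (θ (.inl 1)))
        (QQ (B2 θ) (B1 θ) (θ (.inl 0)) (θ (.inl 2)) (θ (.inl 1))) (θ (.inl 2)) (θ (.inl 1)) := by
  have := (setup (N := (spectrum ℝ (HH θ))ᶜ) hb (spectrum.isClosed _).isOpen_compl
    (notMem_spec θ) (inner_Aop _ _ _ _ _) (inner_Aop _ _ _ _ _)
    (fun z hz => (good_S θ z).definite (sa_S θ z) hz) units_of_below units_of_below
    ⟨_, B_dl_ne (hθ 0).ne' 0 1⟩ ⟨_, B_dl_ne (hθ 3).ne' 2 2⟩).count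
  rw [compl_compl] at this
  rw [this, PP_swap (B1 := B2 θ), QQ_swap (B1 := B2 θ)]

lemma freeEst {θ : Par} (hθ : θ ∈ Param 3 5) :
    FreeEst (B1 θ) (B2 θ) (θ (.inr 3) ^ 2 + θ (.inr 4) ^ 2) := fun _ hε =>
  free_est (by decide) (by decide) (by decide) (hθ 1).ne' hε

/-- the function whose zero set carries the closed gaps -/
noncomputable def tt (θ : Par) : ℝ :=
  θ (.inl 1) - θ (.inl 0) - (θ (.inr 3) ^ 2 + θ (.inr 4) ^ 2) * (θ (.inl 1) - θ (.inl 2))⁻¹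

lemma opn_two {θ : Par} (hθ : θ ∈ Param 3 5) (hb : θ (.inl 1) ≠ θ (.inl 2))
    (ha : θ (.inr 3) ≠ θ (.inr 4)) :
    Opn (PP (B2 θ) (B1 θ) (θ (.inl 0)) (θ (.inl 2)) (θ (.inl 1)))
      (QQ (B2 θ) (B1 θ) (θ (.inl 0)) (θ (.inl 2)) (θ (.inl 1))) (θ (.inl 2)) (θ (.inl 1)) := by
  refine opn_of_below hb.symm ⟨_, ?_, below_two 2⟩
  rw [abs_of_pos (hθ 3), abs_of_pos (hθ 4)]
  have := sub_ne_zero.2 ha
  positivity

theorem all_open {θ : Par} (hθ : θ ∈ Param 3 5) (hb : θ (.inl 1) ≠ θ (.inl 2))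
    (ha : θ (.inr 3) ≠ θ (.inr 4)) (ht : tt θ ≠ 0) : (gaps (spectrum ℝ (HH θ))).encard = 2 :=
  (count_iff hθ hb).2 ⟨opn_of_ne hb (freeEst hθ) ht, opn_two hθ hb ha⟩

theorem not_all_open {θ : Par} (hθ : θ ∈ Param 3 5) (hb : θ (.inl 1) ≠ θ (.inl 2))
    (ht : tt θ = 0) (h0 : θ (.inr 0) ^ 2 ≤ θ (.inr 1) ^ 2 + θ (.inr 2) ^ 2)
    (h1 : θ (.inr 1) ^ 2 ≤ θ (.inr 0) ^ 2 + θ (.inr 2) ^ 2)
    (h2 : θ (.inr 2) ^ 2 ≤ θ (.inr 0) ^ 2 + θ (.inr 1) ^ 2) :
    (gaps (spectrum ℝ (HH θ))).encard ≠ 2 := by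
  intro h
  have h3 := below_of_opn (by positivity) (freeEst hθ) ht ((count_iff hθ hb).1 h).1
  rcases dominant (by decide) (units_of_below h3).1 with h | h | h <;> linarith

end Pool.Agent.MP_a3b80b_mp.H38
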