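import Pool.Agent.MP_a3b80b_mp.H38.Riesz
import Pool.Agent.MP_a3b80b_mp.H38.L2
import Pool.Agent.MP_a3b80b_mp.H38.Free

/-!
An invertible self-adjoint element of the group algebra of a free group, acting on `ℓ²`, is
definite (the spectrum has no gaps). The proof is the Julg-Valette argument.
-/

open Complex
open scoped InnerProductSpace Real lp

set_option linter.unusedSectionVars false

attribute [-simp] lp.coeFn_add lp.coeFn_sub lp.coeFn_smul lp.coeFn_neg AddSubgroup.coe_add
  AddSubgroupClass.coe_sub AddMemClass.coe_add NegMemClass.coe_neg AddSubgroup.coe_sub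
  AddSubgroup.coe_neg

namespace Pool.Agent.MP_a3b80b_mp.H38

section FR

variable {E : Type*} [NormedAddCommGroup E] [InnerProductSpace ℂ E] [CompleteSpace E]

/-- finite rank operators -/
def FR (T : E →L[ℂ] E) : Prop :=
  ∃ (ι : Type) (_ : Fintype ι) (a b : ι → E), ∀ u, T u = ∑ j, ⟪b j, u⟫_ℂ • a j

lemma FR.add {S T : E →L[ℂ] E} (hS : FR S) (hT : FR T) : FR (S + T) := by
  obtain ⟨ι, _, a, b, h⟩ := hS
  obtain ⟨ι', _, a', b', h'⟩ := hT
  exact ⟨ι ⊕ ι', inferInstance, Sum.elim a a', Sum.elim b b', fun u => by simp [h, h']⟩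

lemma FR.mul_left {T : E →L[ℂ] E} (hT : FR T) (S : E →L[ℂ] E) : FR (S * T) := by
  obtain ⟨ι, _, a, b, h⟩ := hT
  exact ⟨ι, inferInstance, fun j => S (a j), b, fun u => by simp [h]⟩

lemma FR.mul_right {T : E →L[ℂ] E} (hT : FR T) (S : E →L[ℂ] E) : FR (T * S) := by
  obtain ⟨ι, _, a, b, h⟩ := hT
  exact ⟨ι, inferInstance, a, fun j => ContinuousLinearMap.adjoint S (b j), fun u => by
    simp [h, ContinuousLinearMap.adjoint_inner_left]⟩

lemma FR.smul {T : E →L[ℂ] E} (hT : FR T) (c : ℂ) : FR (c • T) := by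
  have := hT.mul_left (c • 1)
  simpa using this

lemma FR.rankOne (a b : E) : FR (InnerProductSpace.rankOne ℂ a b) :=
  ⟨Unit, inferInstance, fun _ => a, fun _ => b, fun u => by simp⟩

end FR

variable {α : Type} [DecidableEq α] [Fintype α]

open FreeGroup

/-- the Hilbert space of the group -/
noncomputable abbrev K (α : Type) := ℓ²(FreeGroup α, ℂ)

instance : Nontrivial (K α) := ⟨⟨dl 1, 0, fun h => by
  have := congrArg Norm.norm h
  simp at this⟩⟩

/-- right translation -/
noncomputable def Rt (g : FreeGroup α) : K α →L[ℂ] K α := pe (Equiv.mulRight g)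

/-- left translation -/
noncomputable def Lt (g : FreeGroup α) : K α →L[ℂ] K α := pe (Equiv.mulLeft g)

@[simp] lemma Rt_apply (g : FreeGroup α) (u : K α) (x) : Rt g u x = u (x * g) := rfl

@[simp] lemma Lt_apply (g : FreeGroup α) (u : K α) (x) : Lt g u x = u (g * x) := rfl

lemma adjoint_Rt (g : FreeGroup α) : ContinuousLinearMap.adjoint (Rt g) = Rt g⁻¹ := by
  unfold Rt
  rw [adjoint_pe, Equiv.mulRight_symm]

lemma norm_Rt (g : FreeGroup α) (u : K α) : ‖Rt g u‖ = ‖u‖ := norm_pe _ _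

lemma norm_Lt (g : FreeGroup α) (u : K α) : ‖Lt g u‖ = ‖u‖ := norm_pe _ _

lemma Lt_dl (g x : FreeGroup α) : Lt g (dl x) = dl (g⁻¹ * x) := pe_dl _ _

lemma Rt_dl (g x : FreeGroup α) : Rt g (dl x) = dl (x * g⁻¹) := pe_dl _ _

/-- the comparison homomorphism -/
noncomputable def Phi (T : K α →L[ℂ] K α) : K α →L[ℂ] K α :=
  ∑ i, (pb (jv i).symm).comp (T.comp (pb (jv i)))

lemma Phi_apply' (T : K α →L[ℂ] K α) (u : K α) :
    Phi T u = ∑ i, pb (jv i).symm (T (pb (jv i) u)) := by
  simp [Phi]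

lemma Phi_apply {T : K α →L[ℂ] K α} {u : K α} {i : α} {x y : FreeGroup α}
    (h : jv i x = some y) : Phi T u y = T (pb (jv i) u) x := by
  rw [Phi_apply', lp.coeFn_sum, Finset.sum_apply, Finset.sum_eq_single i]
  · rw [pb_apply, (jv i).eq_some_iff.2 h]
    rfl
  · intro j _ hj
    obtain ⟨b, hb⟩ := hd_of_jv h
    rw [pb_apply, jv_symm_ne]
    · rfl
    · intro b' hb'
      rw [hb] at hb'
      exact hj (congrArg Prod.fst (Option.some.inj hb')).symm
  · simp

lemma Phi_apply_one (T : K α →L[ℂ] K α) (u : K α) : Phi T u 1 = 0 := by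
  rw [Phi_apply', lp.coeFn_sum, Finset.sum_apply]
  refine Finset.sum_eq_zero fun j _ => ?_
  rw [pb_apply, jv_symm_ne (by simp)]
  rfl

lemma exists_jv {y : FreeGroup α} (h : y ≠ 1) : ∃ i x, jv i x = some y := by
  rcases hy : hd y with _ | ⟨i, b⟩
  · exact absurd (hd_eq_none.1 hy) h
  · obtain ⟨x, hx⟩ := jv_symm_some hy
    exact ⟨i, x, (jv i).eq_some_iff.1 hx⟩

lemma pb_jv_Phi (i : α) (T : K α →L[ℂ] K α) (u : K α) :
    pb (jv i) (Phi T u) = T (pb (jv i) u) := by
  ext x
  rw [pb_apply, jv_apply, Option.elim_some, Phi_apply (jv_apply i x)]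

lemma Phi_mul (S T : K α →L[ℂ] K α) : Phi (S * T) = Phi S * Phi T := by
  ext1 u
  simp only [Phi_apply' S, Phi_apply' (S * T), mul_apply_eq_comp, pb_jv_Phi]

lemma Phi_add (S T : K α →L[ℂ] K α) : Phi (S + T) = Phi S + Phi T := by
  ext1 u
  simp [Phi_apply', Finset.sum_add_distrib]

lemma Phi_smul (c : ℂ) (T : K α →L[ℂ] K α) : Phi (c • T) = c • Phi T := by
  ext1 u
  simp [Phi_apply', Finset.smul_sum]

lemma Phi_sub (S T : K α →L[ℂ] K α) : Phi (S - T) = Phi S - Phi T := by
  ext1 u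
  simp [Phi_apply', Finset.sum_sub_distrib]

/-- projection onto the unit element -/
noncomputable def p1 : K α →L[ℂ] K α := InnerProductSpace.rankOne ℂ (dl 1) (dl 1)

lemma p1_apply (u : K α) : p1 u = u 1 • dl 1 := by simp [p1]

lemma Phi_one : Phi (1 : K α →L[ℂ] K α) = 1 - p1 := by
  ext u y
  by_cases hy : y = 1
  · subst hy
    simp [Phi_apply_one, p1_apply]
  · obtain ⟨i, x, h⟩ := exists_jv hy
    simp [Phi_apply h, p1_apply, dl_ne hy, pb_apply, h]

lemma pb_jv_dl_one (i : α) : pb (jv i) (dl 1) = 0 := by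
  rw [pb_dl, jv_symm_ne (by simp)]
  rfl

lemma Phi_mul_p1 (T : K α →L[ℂ] K α) : Phi T * p1 = 0 := by
  ext1 u
  simp [p1_apply, Phi_apply', pb_jv_dl_one]

lemma p1_mul_Phi (T : K α →L[ℂ] K α) : p1 * Phi T = 0 := by
  ext1 u
  simp [p1_apply, Phi_apply_one]

lemma p1_mul_p1 : (p1 : K α →L[ℂ] K α) * p1 = p1 := by
  ext1 u
  simp [p1_apply]

lemma Phi_diag {T : K α →L[ℂ] K α} {i : α} {x y : FreeGroup α}
    (h : jv i x = some y) : Phi T (dl y) y = T (dl x) x := by
  rw [Phi_apply h, pb_dl, (jv i).eq_some_iff.2 h]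
  rfl

/-- the operators to which the argument applies -/
def Good (T : K α →L[ℂ] K α) : Prop := (∀ g, Commute (Lt g) T) ∧ FR (T - Phi T)

lemma Good.add {S T : K α →L[ℂ] K α} (hS : Good S) (hT : Good T) : Good (S + T) :=
  ⟨fun g => (hS.1 g).add_right (hT.1 g), by
    convert hS.2.add hT.2 using 1
    rw [Phi_add]; abel⟩

lemma Good.smul {T : K α →L[ℂ] K α} (hT : Good T) (c : ℂ) : Good (c • T) :=
  ⟨fun g => (hT.1 g).smul_right c, by
    convert hT.2.smul c using 1
    rw [Phi_smul, smul_sub]⟩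

lemma Good.sub {S T : K α →L[ℂ] K α} (hS : Good S) (hT : Good T) : Good (S - T) := by
  simpa [sub_eq_add_neg] using hS.add (hT.smul (-1))

lemma Good.mul {S T : K α →L[ℂ] K α} (hS : Good S) (hT : Good T) : Good (S * T) :=
  ⟨fun g => (hS.1 g).mul_right (hT.1 g), by
    convert (hS.2.mul_right T).add (hT.2.mul_left (Phi S)) using 1
    rw [Phi_mul, sub_mul, mul_sub]; abel⟩

lemma good_one : Good (1 : K α →L[ℂ] K α) :=
  ⟨fun g => Commute.one_right _, by
    rw [Phi_one, sub_sub_cancel]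
    exact FR.rankOne _ _⟩

lemma good_Rt (l : α × Bool) : Good (Rt (lt l)) := by
  refine ⟨fun g => ?_, ?_⟩
  · ext u x
    simp [mul_assoc]
  · set T := Rt (lt l) - Phi (Rt (lt l)) with hT
    have : T = (p1 + InnerProductSpace.rankOne ℂ (dl (lt l)⁻¹) (dl (lt l)⁻¹)) * T := by
      ext u y
      have hne : (lt l)⁻¹ ≠ 1 := inv_ne_one.2 (lt_ne_one l)
      simp only [mul_apply_eq_comp, add_apply, p1_apply, InnerProductSpace.rankOne_apply,
        inner_dl_left, lp.coeFn_add, lp.coeFn_smul, Pi.add_apply, Pi.smul_apply, smul_eq_mul]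
      by_cases hy : y = 1
      · subst hy
        simp [dl_ne hne.symm]
      by_cases hy2 : y = (lt l)⁻¹
      · subst hy2
        simp [dl_ne hne]
      obtain ⟨i, x, h⟩ := exists_jv hy
      have h3 := jv_mul h l (fun h => hy2 (eq_inv_of_mul_eq_one_left h))
      simp [dl_ne hy, dl_ne hy2, hT, Phi_apply h, pb_apply, h3]
    rw [this]
    exact ((FR.rankOne _ _).add (FR.rankOne _ _)).mul_right _

lemma diag_const {T : K α →L[ℂ] K α} (h : ∀ g, Commute (Lt g) T) (x : FreeGroup α) :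
    T (dl x) x = T (dl 1) 1 := by
  have := DFunLike.congr_fun (h x).eq (dl x)
  simp only [mul_apply_eq_comp, Lt_dl, inv_mul_cancel] at this
  rw [← this]
  simp

lemma commute_resolvent {S X : K α →L[ℂ] K α} (h : Commute S X) {z : ℂ}
    (hz : z ∈ resolventSet ℂ X) : Commute S (resolvent X z) := by
  have h1 : Commute S (algebraMap ℂ _ z - X) := (Algebra.commute_algebraMap_right _ _).sub_right h
  have h2 := res_mul hz
  have h3 := mul_res hz
  calc S * resolvent X z = (resolvent X z * (algebraMap ℂ _ z - X)) * S * resolvent X z := by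
        rw [h2, one_mul]
    _ = resolvent X z * S * ((algebraMap ℂ _ z - X) * resolvent X z) := by
        rw [mul_assoc (resolvent X z), ← h1.eq]; simp only [mul_assoc]
    _ = resolvent X z * S := by rw [h3, mul_one]

theorem Good.definite {X : K α →L[ℂ] K α} (hG : Good X) (hX : IsSelfAdjoint X) (h0 : IsUnit X) :
    Pos X ∨ Pos (-X) := by
  classical
  obtain ⟨r, hr, hres, P, hPP, hPs, hint, hP0, hP1⟩ := riesz hX h0
  set Y := Phi X + (-r : ℂ) • p1 with hY
  have hzr : ∀ z ∈ Metric.sphere (-r : ℂ) |r|, z - (-r) ≠ 0 := by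
    intro z hz h
    rw [sub_eq_zero.1 h] at hz
    simp only [Metric.mem_sphere, dist_self] at hz
    exact hr.ne' (abs_eq_zero.1 hz.symm)
  have hYz : ∀ z : ℂ, algebraMap ℂ _ z - Y = Phi (algebraMap ℂ _ z - X) + (z - (-r)) • p1 := by
    intro z
    rw [Phi_sub, Algebra.algebraMap_eq_smul_one, Phi_smul, Phi_one, hY]
    module
  have hmul : ∀ (S T : K α →L[ℂ] K α) (c d : ℂ), S * T = 1 → c * d = 1 →
      (Phi S + c • p1) * (Phi T + d • p1) = 1 := by
    intro S T c d h1 h2
    simp only [add_mul, mul_add, mul_smul_comm, smul_mul_assoc, ← Phi_mul, h1, Phi_one,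
      Phi_mul_p1, p1_mul_Phi, p1_mul_p1, smul_zero, add_zero, zero_add, smul_smul,
      mul_comm d c, h2, one_smul, sub_add_cancel]
  have hY1 : ∀ z ∈ Metric.sphere (-r : ℂ) |r|,
      (algebraMap ℂ _ z - Y) * (Phi (resolvent X z) + (z - (-r))⁻¹ • p1) = 1 := fun z hz => by
    rw [hYz]
    exact hmul _ _ _ _ (mul_res (hres z hz)) (mul_inv_cancel₀ (hzr z hz))
  have hY2 : ∀ z ∈ Metric.sphere (-r : ℂ) |r|,
      (Phi (resolvent X z) + (z - (-r))⁻¹ • p1) * (algebraMap ℂ _ z - Y) = 1 := fun z hz => by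
    rw [hYz]
    exact hmul _ _ _ _ (res_mul (hres z hz)) (inv_mul_cancel₀ (hzr z hz))
  have hresY : ∀ z ∈ Metric.sphere (-r : ℂ) |r|, z ∈ resolventSet ℂ Y := fun z hz =>
    ⟨⟨_, _, hY1 z hz, hY2 z hz⟩, rfl⟩
  have hRY : ∀ z ∈ Metric.sphere (-r : ℂ) |r|,
      resolvent Y z = Phi (resolvent X z) + (z - (-r))⁻¹ • p1 := fun z hz => by
    have := res_mul (hresY z hz)
    rw [← mul_one (resolvent Y z), ← hY1 z hz, ← mul_assoc, this, one_mul]
  have hFR : FR (X - Y) := by
    convert hG.2.add ((FR.rankOne (dl (1 : FreeGroup α)) (dl 1)).smul r) using 1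
    rw [hY, p1]
    module
  obtain ⟨ι, _, a, b, hK⟩ := hFR
  obtain ⟨n, hn⟩ := finrank_circleIntegral hK hres hresY
  have htr : ∀ z ∈ Metric.sphere (-r : ℂ) |r|,
      ∑ j, ⟪b j, resolvent Y z (resolvent X z (a j))⟫_ℂ =
        resolvent X z (dl 1) 1 - (z - (-r))⁻¹ := by
    intro z hz
    have h1 := hasSum_diag (T := resolvent X z - resolvent Y z)
      (a := fun j => resolvent X z (a j))
      (b := fun j => ContinuousLinearMap.adjoint (resolvent Y z) (b j)) (fun u => by
        rw [res_sub' (hres z hz) (hresY z hz)]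
        simp only [mul_apply_eq_comp, hK, map_sum, map_smul,
          ContinuousLinearMap.adjoint_inner_left])
    simp only [ContinuousLinearMap.adjoint_inner_left] at h1
    refine h1.unique ?_
    convert hasSum_single (1 : FreeGroup α) ?_ using 1
    · simp [hRY z hz, Phi_apply_one, p1_apply]
    · intro y hy
      obtain ⟨i, x, h⟩ := exists_jv hy
      have hc : ∀ g, Commute (Lt g) (resolvent X z) := fun g =>
        commute_resolvent (hG.1 g) (hres z hz)
      simp [hRY z hz, Phi_diag h, p1_apply, dl_ne hy, diag_const hc y, diag_const hc x]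
  have hcont : ∀ x : FreeGroup α, ContinuousOn (fun z => resolvent X z (dl x) x)
      (Metric.sphere (-r : ℂ) |r|) := by
    intro x z hz
    have h2 := (spectrum.hasDerivAt_resolvent_const_left (hres z hz)).continuousAt
    have h3 := ContinuousAt.inner (𝕜 := ℂ) (continuousAt_const (y := dl x))
      (h2.clm_apply (continuousAt_const (y := dl x)))
    simpa using h3.continuousWithinAt
  have habs : |r| = r := abs_of_pos hr
  rw [circleIntegral.integral_congr hr.le (fun z hz => htr z (by rwa [habs])),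
    circleIntegral.integral_sub (g := fun z => (z - (-r))⁻¹)
      ((habs ▸ hcont 1).circleIntegrable hr.le)
      ((ContinuousOn.inv₀ (by fun_prop) (fun z hz => hzr z (by rwa [habs]))).circleIntegrable
        hr.le),
    circleIntegral.integral_sub_inv_of_mem_ball (by simpa using hr)] at hn
  have hdiag : ∀ x : FreeGroup α, P (dl x) x = n + 1 := by
    intro x
    have h1 := hint (dl x) (dl x)
    simp only [inner_dl_left] at h1
    rw [circleIntegral.integral_congr hr.le (g := fun z => resolvent X z (dl 1) 1)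
      (fun z hz => diag_const (fun g => commute_resolvent (hG.1 g)
        (hres z (by rwa [habs]))) x)] at h1
    have h2 : (2 * π * I : ℂ) ≠ 0 := by simp [Real.pi_ne_zero]
    apply mul_left_cancel₀ h2
    linear_combination hn - h1
  have hproj : ∀ Q : K α →L[ℂ] K α, Q * Q = Q → IsSelfAdjoint Q → ∀ x,
      Q (dl x) x = ((‖Q (dl x)‖ ^ 2 : ℝ) : ℂ) := by
    intro Q h1 h2 x
    rw [← inner_dl_left]
    conv_lhs => rw [← h1]
    rw [mul_apply_eq_comp, ← ContinuousLinearMap.adjoint_inner_left,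
      ← ContinuousLinearMap.star_eq_adjoint, h2.star_eq, inner_self_eq_norm_sq_to_K]
    simp
  have hQ : (1 - P) * (1 - P) = 1 - P := by
    rw [sub_mul, mul_sub, mul_sub, hPP]; simp
  have hA : ∀ x, ((n + 1 : ℤ) : ℝ) = ‖P (dl x)‖ ^ 2 := fun x => by
    have := hproj P hPP hPs x
    rw [hdiag] at this
    apply Complex.ofReal_injective
    rw [← this]
    simp
  have hB : ∀ x, ((-n : ℤ) : ℝ) = ‖(1 - P) (dl x)‖ ^ 2 := fun x => by
    have := hproj (1 - P) hQ ((IsSelfAdjoint.one _).sub hPs) x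
    rw [show (1 - P) (dl x) x = 1 - P (dl x) x by simp, hdiag,
      show (1 - (n + 1) : ℂ) = -n by ring] at this
    apply Complex.ofReal_injective
    rw [← this]
    simp
  have h1 : (0 : ℤ) ≤ n + 1 := by
    have : (0 : ℝ) ≤ ((n + 1 : ℤ) : ℝ) := by rw [hA 1]; positivity
    exact_mod_cast this
  have h2 : (0 : ℤ) ≤ -n := by
    have : (0 : ℝ) ≤ ((-n : ℤ) : ℝ) := by rw [hB 1]; positivity
    exact_mod_cast this
  by_cases hn0 : n = 0
  · right
    apply hP1
    rw [eq_comm, ← sub_eq_zero]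
    refine ext_dl fun x => ?_
    have := hB x
    simp only [hn0, neg_zero, Int.cast_zero] at this
    simpa using this.symm
  · left
    apply hP0
    refine ext_dl fun x => ?_
    have := hA x
    rw [show n + 1 = 0 by omega] at this
    simpa using this.symm

end Pool.Agent.MP_a3b80b_mp.H38
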